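import Pool.Agent.V7H95.Kik2.PartC

set_option autoImplicit false

open MeasureTheory ProbabilityTheory Finset Filter Topology

namespace Pool.Agent.V7H95.Kik2

open Pool.Agent.V7H95.Kik

/-- the signal scale -/
theorem scale (μ : ℝ) (n : ℕ) : μ * (n : ℝ) ^ (-((2 : ℕ) : ℝ) / 4) = μ / Real.sqrt n := by
  have h1 : (n : ℝ) ^ (-((2 : ℕ) : ℝ) / 4) = (Real.sqrt n)⁻¹ := by
    rw [Real.sqrt_eq_rpow, ← Real.rpow_neg (Nat.cast_nonneg n)]
    congr 1
    norm_num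
  rw [h1, ← div_eq_mul_inv]

/-- part A with the trace bound -/
theorem upper_ev {ε : ℝ} (hε : 0 < ε) :
    ∀ᶠ n : ℕ in atTop, ∫ Z, lmax (wig n (m1 ^ 2 / (3 * Real.sqrt n)) Z) ∂(G (Finset (Fin n))) ≤
      ∫ Z, lmax (wig (n + 1) 0 Z) ∂(G (Finset (Fin (n + 1)))) + ε * Real.sqrt n := by
  have h1 := trace_small (K := 5 / 2) (by norm_num) (ε := ε / 2) (by positivity)
  have h2 := (tendsto_add_atTop_nat 1).eventually h1
  filter_upwards [h2, eventually_ge_atTop 3] with n h3 hn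
  obtain ⟨j, hj, h4⟩ := h3
  have hn3 : (3 : ℝ) ≤ n := by exact_mod_cast hn
  have hs0 : 0 < Real.sqrt n := Real.sqrt_pos.2 (by linarith)
  have h5 := partA (n := n) (by omega) (z := 3 * Real.sqrt n) (by positivity) j hj
    (wig_trace_int _)
  refine h5.trans ?_
  have h6 : (5 / 2) * Real.sqrt ((n + 1 : ℕ) : ℝ) ≤ 3 * Real.sqrt n := by
    rw [← Real.sqrt_sq (show (0 : ℝ) ≤ 5 / 2 by norm_num), ← Real.sqrt_sq (show (0 : ℝ) ≤ 3 by
      norm_num), ← Real.sqrt_mul (by norm_num), ← Real.sqrt_mul (by norm_num)]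
    apply Real.sqrt_le_sqrt
    push_cast
    linarith
  have h7 : 0 ≤ ∫ Z, (wig (n + 1) 0 Z ^ 2 ^ (j + 1)).trace ∂(G (Finset (Fin (n + 1)))) :=
    integral_nonneg fun Z => trace_nonneg _ (wig_symm 0 Z) j
  have h8 : 0 < (5 / 2) * Real.sqrt ((n + 1 : ℕ) : ℝ) := by positivity
  have h9 : (∫ Z, (wig (n + 1) 0 Z ^ 2 ^ (j + 1)).trace ∂(G (Finset (Fin (n + 1))))) /
      (3 * Real.sqrt n) ^ (2 ^ (j + 1) - 1) ≤
      (∫ Z, (wig (n + 1) 0 Z ^ 2 ^ (j + 1)).trace ∂(G (Finset (Fin (n + 1))))) /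
      ((5 / 2) * Real.sqrt ((n + 1 : ℕ) : ℝ)) ^ (2 ^ (j + 1) - 1) := by
    apply div_le_div_of_nonneg_left h7 (by positivity)
    exact pow_le_pow_left₀ h8.le h6 _
  have h10 : Real.sqrt ((n + 1 : ℕ) : ℝ) ≤ 2 * Real.sqrt n := by
    rw [← Real.sqrt_sq (show (0 : ℝ) ≤ 2 by norm_num), ← Real.sqrt_mul (by norm_num)]
    apply Real.sqrt_le_sqrt
    push_cast
    linarith
  have h11 : ε / 2 * Real.sqrt ((n + 1 : ℕ) : ℝ) ≤ ε / 2 * (2 * Real.sqrt n) :=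
    mul_le_mul_of_nonneg_left h10 (by positivity)
  linarith

/-- the noise is of order `√n` -/
theorem lower_ev : ∀ᶠ n : ℕ in atTop, m1 ^ 2 / 12 * Real.sqrt n ≤
      ∫ Z, lmax (wig (n + 1) 0 Z) ∂(G (Finset (Fin (n + 1)))) := by
  have hm := m1_pos
  filter_upwards [upper_ev (ε := m1 ^ 2 / 12) (by positivity), eventually_ge_atTop 2] with n h1 hn
  have hn2 : (2 : ℝ) ≤ n := by exact_mod_cast hn
  have hs0 : 0 < Real.sqrt n := Real.sqrt_pos.2 (by linarith)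
  have hss : Real.sqrt n * Real.sqrt n = n := Real.mul_self_sqrt (by linarith)
  have h2 := emax_upper (n := n) (m := 0) (m1 ^ 2 / (3 * Real.sqrt n))
  have h3 := Emax_ge (n := n) (l := 1) (k := 1) (c := m1 ^ 2 / (3 * Real.sqrt n))
    (by positivity) (by omega)
  simp only [Nat.choose_self, Nat.choose_one_right, Nat.cast_one, one_mul, mul_one, Nat.cast_zero,
    zero_add] at h2 h3
  have h4 : m1 ^ 2 / (3 * Real.sqrt n) * ((n - 1 : ℕ) : ℝ) ≤
      ∫ Z, lmax (wig n (m1 ^ 2 / (3 * Real.sqrt n)) Z) ∂(G (Finset (Fin n))) := h3.trans h2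
  have h5 : m1 ^ 2 / 6 * Real.sqrt n ≤ m1 ^ 2 / (3 * Real.sqrt n) * ((n - 1 : ℕ) : ℝ) := by
    rw [Nat.cast_sub (by omega), Nat.cast_one,
      div_mul_eq_mul_div (m1 ^ 2) (3 * Real.sqrt n), le_div_iff₀ (by positivity)]
    calc m1 ^ 2 / 6 * Real.sqrt n * (3 * Real.sqrt n) =
        m1 ^ 2 * ((Real.sqrt n * Real.sqrt n) / 2) := by ring
      _ = m1 ^ 2 * ((n : ℝ) / 2) := by rw [hss]
      _ ≤ m1 ^ 2 * ((n : ℝ) - 1) := by
          apply mul_le_mul_of_nonneg_left _ (by positivity)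
          linarith
  linarith

/-- the lower bound of the noise of the Kikuchi matrix -/
theorem noise_ge_ev (m : ℕ) {η : ℝ} (hη : 0 < η) :
    ∀ᶠ n : ℕ in atTop, ∀ k : ℕ, n + 1 = 2 ^ k →
      ((m : ℝ) + 1) * (∫ Z, lmax (wig (n + 1) 0 Z) ∂(G (Finset (Fin (n + 1)))) -
        3 * η * Real.sqrt n) ≤ Emax n 2 (m + 1) 0 := by
  have h1 : ∀ᶠ n : ℕ in atTop, ((m : ℝ) + 3) ^ 2 * (2 * (1 + 2 * M2)) / η ≤ Real.sqrt n :=
    tendsto_sqrt.eventually_ge_atTop _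
  have h2 : ∀ᶠ n : ℕ in atTop, 8 * M4 / η ^ 4 ≤ (n : ℝ) :=
    tendsto_natCast_atTop_atTop.eventually_ge_atTop _
  filter_upwards [h1, h2, eventually_ge_atTop 1] with n h3 h4 hn k hk
  have hn1 : (1 : ℝ) ≤ n := by exact_mod_cast hn
  have hs0 : 0 < Real.sqrt n := Real.sqrt_pos.2 (by linarith)
  have hss : Real.sqrt n * Real.sqrt n = n := Real.mul_self_sqrt (by linarith)
  refine le_trans ?_ (emax_lower (m := m) hk (T0 := η * Real.sqrt n) (by positivity))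
  apply mul_le_mul_of_nonneg_left _ (by positivity)
  have h5 := wig_le_goe (N := n + 1) (by omega)
  have h6 : ((m : ℝ) + 3) ^ 2 * (2 * (1 + 2 * M2)) ≤ η * Real.sqrt n := by
    rw [div_le_iff₀ hη] at h3
    linarith
  have hM4 : 0 ≤ M4 := integral_nonneg fun x => by positivity
  have h7 : ((n + 1 : ℕ) : ℝ) * (4 * M4 / (η * Real.sqrt n) ^ 3) ≤ η * Real.sqrt n := by
    have h8 : ((n + 1 : ℕ) : ℝ) ≤ 2 * n := by push_cast; linarith
    calc ((n + 1 : ℕ) : ℝ) * (4 * M4 / (η * Real.sqrt n) ^ 3)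
        ≤ (2 * n) * (4 * M4 / (η * Real.sqrt n) ^ 3) :=
          mul_le_mul_of_nonneg_right h8 (by positivity)
      _ = (8 * M4) / (η ^ 3 * Real.sqrt n) := by
          have e1 : (η * Real.sqrt n) ^ 3 = η ^ 3 * Real.sqrt n * n := by
            calc (η * Real.sqrt n) ^ 3 = η ^ 3 * Real.sqrt n * (Real.sqrt n * Real.sqrt n) := by ring
              _ = _ := by rw [hss]
          rw [e1]
          have hn0 : (n : ℝ) ≠ 0 := by positivity
          field_simp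
          ring
      _ ≤ η * Real.sqrt n := by
          rw [div_le_iff₀ (by positivity)]
          rw [div_le_iff₀ (by positivity)] at h4
          calc 8 * M4 ≤ n * η ^ 4 := h4
            _ = (Real.sqrt n * Real.sqrt n) * η ^ 4 := by rw [hss]
            _ = _ := by ring
  linarith

/-- for `r = 2` a weak signal is never detected, whatever the number of particles -/
theorem no_sep (m : ℕ) : ¬ ∃ ε : ℝ, 0 < ε ∧ ∀ᶠ n : ℕ in atTop, 1 + ε ≤
    Emax n 2 (m + 1) (m1 ^ 2 / 3 * (n : ℝ) ^ (-((2 : ℕ) : ℝ) / 4)) / Emax n 2 (m + 1) 0 := by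
  rintro ⟨ε, hε, h⟩
  have hm := m1_pos
  set c0 := m1 ^ 2 / 12 with hc0
  have hc0' : 0 < c0 := by positivity
  set η := ε * c0 / (12 * (1 + ε)) with hη
  have hη0 : 0 < η := by positivity
  obtain ⟨N0, hN0⟩ := Filter.eventually_atTop.1
    (h.and ((upper_ev (ε := ε * c0 / 4) (by positivity)).and
      (lower_ev.and ((noise_ge_ev m hη0).and (eventually_ge_atTop (m + 2))))))
  have hlt : N0 + 1 < 2 ^ (N0 + 1) := Nat.lt_two_pow_self
  obtain ⟨h1, h2, h3, h4, h5⟩ := hN0 (2 ^ (N0 + 1) - 1) (by omega)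
  set n := 2 ^ (N0 + 1) - 1 with hn
  have hnk : n + 1 = 2 ^ (N0 + 1) := by omega
  have h6 := h4 (N0 + 1) hnk
  have h7 := Emax_zero_pos (n := n) (l := m + 1) (k := 1) le_rfl (by omega) (by omega)
  have h7' : 0 < Emax n 2 (m + 1) 0 := h7
  rw [le_div_iff₀ h7', scale] at h1
  have hn1 : (1 : ℝ) ≤ n := by exact_mod_cast (by omega : 1 ≤ n)
  have hs0 : 0 < Real.sqrt n := Real.sqrt_pos.2 (by linarith)
  have e1 : m1 ^ 2 / 3 / Real.sqrt n = m1 ^ 2 / (3 * Real.sqrt n) := by rw [div_div]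
  rw [e1] at h1
  have h8 := emax_upper (n := n) (m := m) (m1 ^ 2 / (3 * Real.sqrt n))
  set a := ∫ Z, lmax (wig (n + 1) 0 Z) ∂(G (Finset (Fin (n + 1)))) with ha
  have hm0 : (0 : ℝ) < (m : ℝ) + 1 := by positivity
  have h9 : (1 + ε) * (((m : ℝ) + 1) * (a - 3 * η * Real.sqrt n)) ≤
      ((m : ℝ) + 1) * (a + ε * c0 / 4 * Real.sqrt n) := by
    calc (1 + ε) * (((m : ℝ) + 1) * (a - 3 * η * Real.sqrt n))
        ≤ (1 + ε) * Emax n 2 (m + 1) 0 := mul_le_mul_of_nonneg_left h6 (by linarith)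
      _ ≤ Emax n 2 (m + 1) (m1 ^ 2 / (3 * Real.sqrt n)) := h1
      _ ≤ ((m : ℝ) + 1) * ∫ Z, lmax (wig n (m1 ^ 2 / (3 * Real.sqrt n)) Z) ∂(G (Finset (Fin n))) :=
          h8
      _ ≤ _ := mul_le_mul_of_nonneg_left h2 hm0.le
  have h10 : ((m : ℝ) + 1) * ((1 + ε) * (a - 3 * η * Real.sqrt n)) ≤
      ((m : ℝ) + 1) * (a + ε * c0 / 4 * Real.sqrt n) := by
    refine le_trans (le_of_eq ?_) h9
    ring
  have h11 := le_of_mul_le_mul_left h10 hm0
  have h12 : (1 + ε) * (3 * η * Real.sqrt n) = ε * c0 / 4 * Real.sqrt n := by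
    rw [hη]
    field_simp
    ring
  have h13 : ε * (c0 * Real.sqrt n) ≤ ε * a := mul_le_mul_of_nonneg_left h3 hε.le
  have h14 : 0 < ε * c0 * Real.sqrt n := by positivity
  nlinarith

end Pool.Agent.V7H95.Kik2
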