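import Pool.Agent.V7H95.Kik2.Wig

set_option autoImplicit false

open MeasureTheory ProbabilityTheory Finset

namespace Pool.Agent.V7H95.Kik2

open Pool.Agent.V7H95.Kik

section
variable {N : ℕ}

theorem dot_mul_comm (A : Matrix (Fin N) (Fin N) ℝ) (hA : A.IsSymm) (x y : Fin N → ℝ) :
    dotProduct x (A.mulVec y) = dotProduct y (A.mulVec x) := by
  rw [Matrix.dotProduct_mulVec, ← Matrix.mulVec_transpose, hA.eq, dotProduct_comm]

theorem quad_add (A : Matrix (Fin N) (Fin N) ℝ) (hA : A.IsSymm) (v u : Fin N → ℝ) (t : ℝ) :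
    dotProduct (v + t • u) (A.mulVec (v + t • u)) =
      dotProduct v (A.mulVec v) + 2 * t * dotProduct u (A.mulVec v) +
        t ^ 2 * dotProduct u (A.mulVec u) := by
  rw [Matrix.mulVec_add, Matrix.mulVec_smul, add_dotProduct, dotProduct_add, dotProduct_add,
    smul_dotProduct, smul_dotProduct, dotProduct_smul, dotProduct_smul]
  have := dot_mul_comm A hA v u
  rw [this]
  simp only [smul_eq_mul]
  ring

/-- the top eigenvector -/
theorem exists_top (hN : 1 ≤ N) (A : Matrix (Fin N) (Fin N) ℝ) (hA : A.IsSymm) :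
    ∃ v : Fin N → ℝ, dotProduct v v = 1 ∧ A.mulVec v = lmax A • v := by
  set S : Set (Fin N → ℝ) := {v | dotProduct v v = 1} with hS
  have hcont1 : Continuous (fun v : Fin N → ℝ => dotProduct v v) := by
    unfold dotProduct
    fun_prop
  have hcont2 : Continuous (fun v : Fin N → ℝ => dotProduct v (A.mulVec v)) := by
    simp only [quad_eq]
    fun_prop
  have hcl : IsClosed S := isClosed_eq hcont1 continuous_const
  have hbd : Bornology.IsBounded S := by
    refine (Metric.isBounded_iff_subset_closedBall 0).2 ⟨1, fun v hv => ?_⟩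
    rw [mem_closedBall_zero_iff, pi_norm_le_iff_of_nonneg zero_le_one]
    intro i
    rw [Real.norm_eq_abs]
    exact abs_le_one hv i
  have hcomp : IsCompact S := Metric.isCompact_of_isClosed_isBounded hcl hbd
  have hne : S.Nonempty := ⟨Pi.single (⟨0, hN⟩ : Fin N) 1, by simp [hS]⟩
  obtain ⟨v, hv, hmax⟩ := hcomp.exists_isMaxOn hne hcont2.continuousOn
  have hlam : lmax A = dotProduct v (A.mulVec v) := by
    apply le_antisymm
    · exact lmax_le_of' A ⟨⟨0, hN⟩⟩ fun y hy => hmax hy
    · exact le_lmax A hv
  refine ⟨v, hv, ?_⟩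
  set u : Fin N → ℝ := A.mulVec v - lmax A • v with hu
  have hv' : dotProduct v v = 1 := hv
  suffices h0 : dotProduct u u = 0 by
    rw [dotProduct_self_eq_zero] at h0
    rw [← sub_eq_zero, ← hu]
    exact h0
  have hge : 0 ≤ dotProduct u u := by
    unfold dotProduct
    exact Finset.sum_nonneg fun i _ => mul_self_nonneg _
  have key : ∀ t : ℝ, 2 * t * dotProduct u u ≤
      t ^ 2 * (lmax A * dotProduct u u - dotProduct u (A.mulVec u)) := by
    intro t
    have h1 := quad_le A (v + t • u)
    rw [quad_add A hA, ← hlam] at h1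
    have h2 : dotProduct (v + t • u) (v + t • u) =
        1 + 2 * t * dotProduct u v + t ^ 2 * dotProduct u u := by
      rw [add_dotProduct, dotProduct_add, dotProduct_add, smul_dotProduct, smul_dotProduct,
        dotProduct_smul, dotProduct_smul, hv', dotProduct_comm v u]
      simp only [smul_eq_mul]
      ring
    rw [h2] at h1
    have h3 : dotProduct u (A.mulVec v) = dotProduct u u + lmax A * dotProduct u v := by
      have : A.mulVec v = u + lmax A • v := by rw [hu]; simp
      rw [this, dotProduct_add, dotProduct_smul, smul_eq_mul]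
    rw [h3] at h1
    nlinarith
  set s := dotProduct u u with hs
  set C := lmax A * s - dotProduct u (A.mulVec u) with hC
  by_contra hne0
  have hpos : 0 < s := lt_of_le_of_ne hge (Ne.symm hne0)
  rcases le_or_gt C 0 with hC0 | hC0
  · have := key 1
    nlinarith
  · have h1 := key (s / C)
    have h2 : 2 * (s / C) * s = 2 * (s ^ 2 / C) := by ring
    have h3 : (s / C) ^ 2 * C = s ^ 2 / C := by
      field_simp
    rw [h2, h3] at h1
    have h4 : 0 < s ^ 2 / C := by positivity
    linarith

/-- the square of the Frobenius norm -/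
def fro (A : Matrix (Fin N) (Fin N) ℝ) : ℝ := ∑ i, ∑ j, A i j ^ 2

theorem fro_nonneg (A : Matrix (Fin N) (Fin N) ℝ) : 0 ≤ fro A :=
  Finset.sum_nonneg fun _ _ => Finset.sum_nonneg fun _ _ => sq_nonneg _

theorem quad_fro (A : Matrix (Fin N) (Fin N) ℝ) (x : Fin N → ℝ) :
    |dotProduct x (A.mulVec x)| ≤ Real.sqrt (fro A) * dotProduct x x := by
  have h0 : 0 ≤ dotProduct x x := by
    unfold dotProduct
    exact Finset.sum_nonneg fun i _ => mul_self_nonneg _
  have h1 : (dotProduct x (A.mulVec x)) ^ 2 ≤ fro A * (dotProduct x x) ^ 2 := by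
    have h2 := Finset.sum_mul_sq_le_sq_mul_sq univ x (A.mulVec x)
    have h3 : ∑ i, x i ^ 2 = dotProduct x x := by
      unfold dotProduct
      exact Finset.sum_congr rfl fun i _ => by ring
    rw [h3] at h2
    have h4 : ∑ i, (A.mulVec x) i ^ 2 ≤ fro A * dotProduct x x := by
      unfold fro
      rw [Finset.sum_mul]
      refine Finset.sum_le_sum fun i _ => ?_
      have h5 := Finset.sum_mul_sq_le_sq_mul_sq univ (A i) x
      rw [h3] at h5
      exact h5
    calc (dotProduct x (A.mulVec x)) ^ 2 ≤ dotProduct x x * ∑ i, (A.mulVec x) i ^ 2 := h2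
      _ ≤ dotProduct x x * (fro A * dotProduct x x) := mul_le_mul_of_nonneg_left h4 h0
      _ = _ := by ring
  have h2 := Real.sqrt_le_sqrt h1
  rw [Real.sqrt_sq_eq_abs, Real.sqrt_mul (fro_nonneg A), Real.sqrt_sq h0] at h2
  exact h2

theorem fro_conj (O A : Matrix (Fin N) (Fin N) ℝ) (hO : O * O.transpose = 1) :
    fro (O * A * O.transpose) = fro A := by
  have h1 : ∀ B : Matrix (Fin N) (Fin N) ℝ, fro B = (B * B.transpose).trace := by
    intro B
    unfold fro Matrix.trace
    refine Finset.sum_congr rfl fun i _ => ?_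
    rw [Matrix.diag_apply, Matrix.mul_apply]
    exact Finset.sum_congr rfl fun j _ => by rw [Matrix.transpose_apply, sq]
  have hO' : O.transpose * O = 1 := mul_eq_one_comm.1 hO
  rw [h1, h1]
  have h2 : O * A * O.transpose * (O * A * O.transpose).transpose =
      O * (A * A.transpose * O.transpose) := by
    rw [Matrix.transpose_mul, Matrix.transpose_mul, Matrix.transpose_transpose]
    calc O * A * O.transpose * (O * (A.transpose * O.transpose)) =
        O * A * (O.transpose * O) * (A.transpose * O.transpose) := by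
          simp only [Matrix.mul_assoc]
      _ = _ := by rw [hO', Matrix.mul_one]; simp only [Matrix.mul_assoc]
  rw [h2, Matrix.trace_mul_comm, Matrix.mul_assoc, hO', Matrix.mul_one]

end

end Pool.Agent.V7H95.Kik2
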