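import Mathlib

set_option autoImplicit false

open Finset

namespace Pool.Agent.V7H95.Kik2

/-- the sign `(-1) ^ |x ∩ y|` -/
def hs {k : ℕ} (x y : Finset (Fin k)) : ℝ := ∏ a ∈ y, (if a ∈ x then -1 else 1)

theorem hs_sq {k : ℕ} (x y : Finset (Fin k)) : hs x y * hs x y = 1 := by
  unfold hs
  rw [← Finset.prod_mul_distrib]
  apply Finset.prod_eq_one
  intro a _
  split_ifs <;> norm_num

theorem hs_orth {k : ℕ} (x x' : Finset (Fin k)) (h : x ≠ x') : ∑ y, hs x y * hs x' y = 0 := by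
  have h1 : ∀ y, hs x y * hs x' y =
      ∏ a ∈ y, ((if a ∈ x then -1 else 1) * (if a ∈ x' then -1 else 1) : ℝ) := by
    intro y
    unfold hs
    rw [← Finset.prod_mul_distrib]
  simp only [h1]
  have h2 := Finset.prod_one_add (s := (Finset.univ : Finset (Fin k)))
    (f := fun a => ((if a ∈ x then -1 else 1) * (if a ∈ x' then -1 else 1) : ℝ))
  rw [Finset.powerset_univ] at h2
  rw [← h2]
  obtain ⟨a, ha⟩ : ∃ a, ¬ (a ∈ x ↔ a ∈ x') := by
    by_contra hc
    push Not at hc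
    exact h (Finset.ext hc)
  apply Finset.prod_eq_zero (Finset.mem_univ a)
  by_cases h3 : a ∈ x <;> by_cases h4 : a ∈ x' <;> simp_all

/-- a flat orthogonal matrix -/
theorem exists_flat (k n : ℕ) (hn : n + 1 = 2 ^ k) :
    ∃ H : Matrix (Fin (n + 1)) (Fin (n + 1)) ℝ, H * H.transpose = 1 ∧
      ∀ i j, H i j ^ 2 = 1 / ((n : ℝ) + 1) := by
  have hcard : Fintype.card (Fin (n + 1)) = Fintype.card (Finset (Fin k)) := by
    rw [Fintype.card_fin, Fintype.card_finset, Fintype.card_fin, hn]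
  set e := Fintype.equivOfCardEq hcard
  have hn0 : (0 : ℝ) < (n : ℝ) + 1 := by positivity
  have hs2 : Real.sqrt ((n : ℝ) + 1) * Real.sqrt ((n : ℝ) + 1) = (n : ℝ) + 1 :=
    Real.mul_self_sqrt hn0.le
  have hs0 : Real.sqrt ((n : ℝ) + 1) ≠ 0 := (Real.sqrt_pos.2 hn0).ne'
  refine ⟨Matrix.of fun i j => hs (e i) (e j) / Real.sqrt ((n : ℝ) + 1), ?_, ?_⟩
  · ext i j
    rw [Matrix.mul_apply, Matrix.one_apply]
    simp only [Matrix.transpose_apply, Matrix.of_apply]
    have h1 : ∀ l, hs (e i) (e l) / Real.sqrt ((n : ℝ) + 1) *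
        (hs (e j) (e l) / Real.sqrt ((n : ℝ) + 1)) =
        (hs (e i) (e l) * hs (e j) (e l)) / ((n : ℝ) + 1) := by
      intro l
      rw [div_mul_div_comm, hs2]
    simp only [h1]
    rw [← Finset.sum_div, e.sum_comp (fun y => hs (e i) y * hs (e j) y)]
    split_ifs with h
    · subst h
      simp only [hs_sq]
      rw [Finset.sum_const, nsmul_eq_mul, mul_one, Finset.card_univ, ← hcard, Fintype.card_fin]
      push_cast
      exact div_self hn0.ne'
    · rw [hs_orth _ _ (fun h' => h (e.injective h')), zero_div]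
  · intro i j
    simp only [Matrix.of_apply]
    rw [div_pow, sq (hs _ _), hs_sq, Real.sq_sqrt hn0.le]

/-- a sign -/
def sg (b : Bool) : ℝ := if b then 1 else -1

theorem sg_sq (b : Bool) : sg b * sg b = 1 := by
  unfold sg
  split_ifs <;> norm_num

theorem sum_cons (N : ℕ) (f : (Fin (N + 1) → Bool) → ℝ) :
    ∑ s : Fin (N + 1) → Bool, f s =
      ∑ s : Fin N → Bool, (f (Fin.cons true s) + f (Fin.cons false s)) := by
  rw [← (Fin.consEquiv (fun _ : Fin (N + 1) => Bool)).sum_comp, Fintype.sum_prod_type,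
    Fintype.sum_bool, ← Finset.sum_add_distrib]
  rfl

theorem rad2 (N : ℕ) (a : Fin N → ℝ) :
    ∑ s : Fin N → Bool, (∑ j, a j * sg (s j)) ^ 2 = 2 ^ N * ∑ j, a j ^ 2 := by
  induction N with
  | zero => simp
  | succ N ih =>
    rw [sum_cons]
    simp only [Fin.sum_univ_succ, Fin.cons_zero, Fin.cons_succ]
    have h1 : ∀ s : Fin N → Bool, (a 0 * sg true + ∑ i : Fin N, a i.succ * sg (s i)) ^ 2 +
        (a 0 * sg false + ∑ i : Fin N, a i.succ * sg (s i)) ^ 2 =
        2 * a 0 ^ 2 + 2 * (∑ i : Fin N, a i.succ * sg (s i)) ^ 2 := by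
      intro s
      simp only [sg]
      simp
      ring
    simp only [h1, Finset.sum_add_distrib, ← Finset.mul_sum]
    rw [ih (fun i => a i.succ), Finset.sum_const, nsmul_eq_mul]
    simp
    ring

theorem rad4 (N : ℕ) (a : Fin N → ℝ) :
    ∑ s : Fin N → Bool, (∑ j, a j * sg (s j)) ^ 4 ≤ 2 ^ N * (3 * (∑ j, a j ^ 2) ^ 2) := by
  induction N with
  | zero => simp
  | succ N ih =>
    rw [sum_cons]
    simp only [Fin.sum_univ_succ, Fin.cons_zero, Fin.cons_succ]
    have h1 : ∀ s : Fin N → Bool, (a 0 * sg true + ∑ i : Fin N, a i.succ * sg (s i)) ^ 4 +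
        (a 0 * sg false + ∑ i : Fin N, a i.succ * sg (s i)) ^ 4 =
        2 * a 0 ^ 4 + 12 * a 0 ^ 2 * (∑ i : Fin N, a i.succ * sg (s i)) ^ 2 +
          2 * (∑ i : Fin N, a i.succ * sg (s i)) ^ 4 := by
      intro s
      simp only [sg]
      simp
      ring
    simp only [h1, Finset.sum_add_distrib, ← Finset.mul_sum]
    rw [rad2 N (fun i => a i.succ), Finset.sum_const, nsmul_eq_mul]
    have h2 := ih (fun i => a i.succ)
    simp only [Finset.card_univ, Fintype.card_pi, Fintype.card_bool, Finset.prod_const,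
      Fintype.card_fin, Nat.cast_pow, Nat.cast_ofNat]
    set A := ∑ i : Fin N, a i.succ ^ 2 with hA
    have hA0 : 0 ≤ A := Finset.sum_nonneg fun i _ => sq_nonneg _
    have h3 : (0 : ℝ) < 2 ^ N := by positivity
    have h4 : (0 : ℝ) ≤ 2 ^ N * a 0 ^ 4 := by positivity
    calc 2 * ((2 : ℝ) ^ N * a 0 ^ 4) + 12 * a 0 ^ 2 * (2 ^ N * A) +
          2 * ∑ s : Fin N → Bool, (∑ i : Fin N, a i.succ * sg (s i)) ^ 4
        ≤ 2 * ((2 : ℝ) ^ N * a 0 ^ 4) + 12 * a 0 ^ 2 * (2 ^ N * A) +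
          2 * (2 ^ N * (3 * A ^ 2)) := by linarith
      _ = 2 ^ (N + 1) * (3 * (a 0 ^ 2 + A) ^ 2) - 4 * (2 ^ N * a 0 ^ 4) := by ring
      _ ≤ _ := by linarith

end Pool.Agent.V7H95.Kik2
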