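import Pool.Agent.V7H95.Kik.Asym

set_option autoImplicit false

open MeasureTheory ProbabilityTheory Finset

namespace Pool.Agent.V7H95.Kik2

open Pool.Agent.V7H95.Kik

/-- restriction of coordinates along an injective map -/
theorem mp_comp {κ ι : Type} [Fintype κ] [Fintype ι] (e : κ → ι) (he : Function.Injective e) :
    MeasurePreserving (fun (Z : ι → ℝ) (k : κ) => Z (e k)) (G ι) (G κ) := by
  refine ⟨by fun_prop, ?_⟩
  have h1 : iIndepFun (fun (i : ι) (Z : ι → ℝ) => Z i) (G ι) := by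
    have := iIndepFun_pi (μ := fun _ : ι => gaussianReal 0 1) (X := fun _ x => x)
      (fun i => by fun_prop)
    exact this
  have h2 := h1.precomp he
  have h3 := (iIndepFun_iff_map_fun_eq_pi_map
    (fun k => (measurable_pi_apply (e k)).aemeasurable)).1 h2
  have h4 : ∀ k : κ, (G ι).map (fun Z : ι → ℝ => Z (e k)) = gaussianReal 0 1 := fun k =>
    (measurePreserving_eval (fun _ : ι => gaussianReal 0 1) (e k)).map_eq
  simp only [h4] at h3
  exact h3

/-- linear isometries preserve the standard Gaussian measure -/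
theorem mp_isom {κ : Type} [Fintype κ] (T : (κ → ℝ) →ₗ[ℝ] (κ → ℝ))
    (hT : ∀ Z, ∑ k, (T Z k) ^ 2 = ∑ k, (Z k) ^ 2) :
    MeasurePreserving T (G κ) (G κ) := by
  classical
  have hcont : Continuous T := T.continuous_of_finiteDimensional
  refine ⟨hcont.measurable, ?_⟩
  let T1 : EuclideanSpace ℝ κ →ₗ[ℝ] EuclideanSpace ℝ κ :=
    (WithLp.linearEquiv 2 ℝ (κ → ℝ)).symm.toLinearMap ∘ₗ T ∘ₗ
      (WithLp.linearEquiv 2 ℝ (κ → ℝ)).toLinearMap
  have hnorm : ∀ x, ‖T1 x‖ = ‖x‖ := by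
    intro x
    have h1 : ‖T1 x‖ ^ 2 = ‖x‖ ^ 2 := by
      rw [EuclideanSpace.real_norm_sq_eq, EuclideanSpace.real_norm_sq_eq]
      exact hT _
    exact (pow_left_inj₀ (norm_nonneg _) (norm_nonneg _) (by norm_num)).1 h1
  let T2 : EuclideanSpace ℝ κ →ₗᵢ[ℝ] EuclideanSpace ℝ κ := ⟨T1, hnorm⟩
  let T3 : EuclideanSpace ℝ κ ≃ₗᵢ[ℝ] EuclideanSpace ℝ κ := T2.toLinearIsometryEquiv rfl
  have h2 := stdGaussian_map (E := EuclideanSpace ℝ κ) T3
  rw [← map_pi_eq_stdGaussian] at h2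
  have hm1 : Measurable (WithLp.toLp 2 : (κ → ℝ) → EuclideanSpace ℝ κ) :=
    (WithLp.measurable_toLp 2 (κ → ℝ))
  have hm2 : Measurable (WithLp.ofLp : EuclideanSpace ℝ κ → (κ → ℝ)) :=
    (WithLp.measurable_ofLp 2 (κ → ℝ))
  have hm3 : Measurable (T3 : EuclideanSpace ℝ κ → EuclideanSpace ℝ κ) := T3.continuous.measurable
  have h3 := congrArg (fun μ => μ.map (WithLp.ofLp : EuclideanSpace ℝ κ → (κ → ℝ))) h2
  simp only at h3
  rw [Measure.map_map hm3 hm1, Measure.map_map hm2 (hm3.comp hm1), Measure.map_map hm2 hm1] at h3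
  have e1 : (WithLp.ofLp ∘ T3 ∘ (WithLp.toLp 2 : (κ → ℝ) → EuclideanSpace ℝ κ)) = T := by
    funext Z
    rfl
  have e2 : (WithLp.ofLp ∘ (WithLp.toLp 2 : (κ → ℝ) → EuclideanSpace ℝ κ)) = id := by
    funext Z
    rfl
  rw [e1, e2, Measure.map_id] at h3
  exact h3

/-- the product measure -/
theorem mp_sum {κ κ' : Type} [Fintype κ] [Fintype κ'] :
    MeasurePreserving (fun (Z : κ ⊕ κ' → ℝ) => ((fun k => Z (Sum.inl k)), (fun k => Z (Sum.inr k))))
      (G (κ ⊕ κ')) ((G κ).prod (G κ')) := by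
  have := measurePreserving_sumPiEquivProdPi (fun _ : κ ⊕ κ' => gaussianReal 0 1)
  exact this

/-- two disjoint sets of coordinates -/
theorem mp_split {κ κ' ι : Type} [Fintype κ] [Fintype κ'] [Fintype ι] (e : κ → ι) (f : κ' → ι)
    (he : Function.Injective e) (hf : Function.Injective f) (hef : ∀ a b, e a ≠ f b) :
    MeasurePreserving (fun (Z : ι → ℝ) => ((fun k => Z (e k)), (fun k => Z (f k))))
      (G ι) ((G κ).prod (G κ')) := by
  have h1 : Function.Injective (Sum.elim e f) := he.sumElim hf hef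
  exact (mp_sum (κ := κ) (κ' := κ')).comp (mp_comp (Sum.elim e f) h1)

end Pool.Agent.V7H95.Kik2
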