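import Pool.Agent.V7H95.Kik2.Wig

set_option autoImplicit false

open MeasureTheory ProbabilityTheory Finset

namespace Pool.Agent.V7H95.Kik2

open Pool.Agent.V7H95.Kik

theorem dot_snoc {n : ℕ} (v w : Fin n → ℝ) (x y : ℝ) :
    dotProduct (Fin.snoc (α := fun _ => ℝ) v x) (Fin.snoc (α := fun _ => ℝ) w y) =
      dotProduct v w + x * y := by
  unfold dotProduct
  rw [Fin.sum_univ_castSucc]
  simp

theorem quad_snoc {n : ℕ} (A : Matrix (Fin (n + 1)) (Fin (n + 1)) ℝ) (hA : A.IsSymm)
    (h0 : A (Fin.last n) (Fin.last n) = 0) (v : Fin n → ℝ) (t : ℝ) :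
    dotProduct (Fin.snoc (α := fun _ => ℝ) v t) (A.mulVec (Fin.snoc (α := fun _ => ℝ) v t)) =
      dotProduct v ((A.submatrix Fin.castSucc Fin.castSucc).mulVec v) +
        2 * t * dotProduct (fun i => A (Fin.castSucc i) (Fin.last n)) v := by
  rw [quad_eq, quad_eq, Fin.sum_univ_castSucc]
  simp only [Fin.sum_univ_castSucc, Fin.snoc_castSucc, Fin.snoc_last, h0, Matrix.submatrix_apply]
  rw [Finset.sum_add_distrib]
  have h1 : ∀ i : Fin n, A (Fin.last n) (Fin.castSucc i) = A (Fin.castSucc i) (Fin.last n) :=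
    fun i => hA.apply _ _
  simp only [h1]
  unfold dotProduct
  rw [Finset.mul_sum]
  have h2 : ∑ i : Fin n, v i * A i.castSucc (Fin.last n) * t =
      ∑ i : Fin n, t * (A i.castSucc (Fin.last n) * v i) :=
    Finset.sum_congr rfl fun i _ => by ring
  have h3 : ∑ i : Fin n, t * A i.castSucc (Fin.last n) * v i =
      ∑ i : Fin n, t * (A i.castSucc (Fin.last n) * v i) :=
    Finset.sum_congr rfl fun i _ => by ring
  have h4 : ∑ i : Fin n, 2 * t * (A i.castSucc (Fin.last n) * v i) =
      2 * ∑ i : Fin n, t * (A i.castSucc (Fin.last n) * v i) := by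
    rw [Finset.mul_sum]
    exact Finset.sum_congr rfl fun i _ => by ring
  rw [h2, h3, h4]
  ring

theorem trace_nonneg {ι : Type} [Fintype ι] [DecidableEq ι] (A : Matrix ι ι ℝ) (hA : A.IsSymm)
    (j : ℕ) : 0 ≤ (A ^ 2 ^ (j + 1)).trace := by
  have h2 : A ^ 2 ^ (j + 1) = A ^ 2 ^ j * A ^ 2 ^ j := by
    rw [← pow_add]; congr 1; ring
  rw [h2, Matrix.trace]
  refine Finset.sum_nonneg fun i _ => ?_
  rw [Matrix.diag_apply, Matrix.mul_apply]
  refine Finset.sum_nonneg fun k _ => ?_
  rw [← (pow_symm A hA (2 ^ j)).apply i k]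
  exact mul_self_nonneg _

/-- the Schur complement -/
theorem schur {n : ℕ} (A : Matrix (Fin (n + 1)) (Fin (n + 1)) ℝ) (hA : A.IsSymm)
    (hd : ∀ i, A i i = 0) {z : ℝ} (hz : 0 < z) (j : ℕ) (hj : 1 ≤ j) (v : Fin n → ℝ)
    (hv : dotProduct v v = 1) :
    dotProduct v ((A.submatrix Fin.castSucc Fin.castSucc).mulVec v) +
      z⁻¹ * (dotProduct (fun i => A (Fin.castSucc i) (Fin.last n)) v) ^ 2 ≤
      lmax A + (A ^ 2 ^ (j + 1)).trace / z ^ (2 ^ (j + 1) - 1) := by
  set x := dotProduct (fun i => A (Fin.castSucc i) (Fin.last n)) v with hx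
  set q := dotProduct v ((A.submatrix Fin.castSucc Fin.castSucc).mulVec v) with hq
  have hl0 : 0 ≤ lmax A := lmax_nonneg A hd
  have hT := trace_nonneg A hA j
  set T := (A ^ 2 ^ (j + 1)).trace with hTdef
  have h1 := quad_le A (Fin.snoc (α := fun _ => ℝ) v (x / z))
  rw [quad_snoc A hA (hd _), dot_snoc, hv, ← hx, ← hq] at h1
  have h2 : q + z⁻¹ * x ^ 2 ≤ lmax A + x ^ 2 * (lmax A - z) / z ^ 2 := by
    have e1 : lmax A * (1 + x / z * (x / z)) = lmax A + lmax A * x ^ 2 / z ^ 2 := by
      field_simp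
    have e2 : 2 * (x / z) * x = 2 * x ^ 2 / z := by
      field_simp
    have e3 : x ^ 2 * (lmax A - z) / z ^ 2 = lmax A * x ^ 2 / z ^ 2 - x ^ 2 / z := by
      field_simp
    have e4 : z⁻¹ * x ^ 2 = x ^ 2 / z := by
      field_simp
    have e5 : 2 * x ^ 2 / z = x ^ 2 / z + x ^ 2 / z := by ring
    rw [e1, e2, e5] at h1
    rw [e3, e4]
    linarith
  refine h2.trans ?_
  have hTz : 0 ≤ T / z ^ (2 ^ (j + 1) - 1) := div_nonneg hT (by positivity)
  rcases le_or_gt (lmax A) z with hlz | hlz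
  · have h3 : x ^ 2 * (lmax A - z) / z ^ 2 ≤ 0 := by
      apply div_nonpos_of_nonpos_of_nonneg _ (by positivity)
      exact mul_nonpos_of_nonneg_of_nonpos (sq_nonneg _) (by linarith)
    linarith
  · -- the root of the trace
    have hN0 : 2 ^ (j + 1) ≠ 0 := by positivity
    obtain ⟨L, hL0, hL⟩ : ∃ L : ℝ, 0 ≤ L ∧ L ^ 2 ^ (j + 1) = T :=
      ⟨T ^ (((2 ^ (j + 1) : ℕ) : ℝ)⁻¹), by positivity, Real.rpow_inv_natCast_pow hT hN0⟩
    have h4 : ∀ y : Fin (n + 1) → ℝ, dotProduct y y = 1 → |dotProduct y (A.mulVec y)| ≤ L := by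
      intro y hy
      have h5 := quad_pow_le_trace A hA hy j
      rw [← hTdef, ← hL] at h5
      have h6 : |dotProduct y (A.mulVec y)| ^ 2 ^ (j + 1) ≤ L ^ 2 ^ (j + 1) := by
        refine le_trans (le_of_eq ?_) h5
        rw [Even.pow_abs]
        exact (Nat.even_pow.2 ⟨even_two, by omega⟩)
      exact (pow_le_pow_iff_left₀ (abs_nonneg _) hL0 hN0).1 h6
    have h5 : lmax A ≤ L := lmax_le_of A hL0 fun y hy => (le_abs_self _).trans (h4 y hy)
    -- the bound of `x`
    have hs2 : Real.sqrt 2 * Real.sqrt 2 = 2 := Real.mul_self_sqrt (by norm_num)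
    have h6 : ∀ s : ℝ, s * s = 1 → |q + 2 * s * x| ≤ 2 * L := by
      intro s hs
      have h7 := h4 ((Real.sqrt 2)⁻¹ • Fin.snoc (α := fun _ => ℝ) v s) (by
        rw [smul_dotProduct, dotProduct_smul, smul_eq_mul, smul_eq_mul, ← mul_assoc, ← mul_inv, hs2,
          dot_snoc, hv, hs]
        norm_num)
      rw [Matrix.mulVec_smul, smul_dotProduct, dotProduct_smul, smul_eq_mul, smul_eq_mul,
        ← mul_assoc, ← mul_inv, hs2, quad_snoc A hA (hd _), ← hx, ← hq, abs_mul] at h7
      rw [abs_of_pos (by norm_num : (0 : ℝ) < 2⁻¹)] at h7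
      linarith
    have h7 := abs_le.1 (h6 1 (by norm_num))
    have h8 := abs_le.1 (h6 (-1) (by norm_num))
    have h9 : |x| ≤ L := by
      rw [abs_le]
      constructor <;> linarith
    have h10 : x ^ 2 ≤ L ^ 2 := by
      rw [← sq_abs x]
      exact pow_le_pow_left₀ (abs_nonneg _) h9 2
    have h11 : x ^ 2 * (lmax A - z) / z ^ 2 ≤ L ^ 3 / z ^ 2 := by
      apply div_le_div_of_nonneg_right _ (by positivity)
      calc x ^ 2 * (lmax A - z) ≤ L ^ 2 * L := by
            apply mul_le_mul h10 (by linarith) (by linarith) (by positivity)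
        _ = L ^ 3 := by ring
    have hzL : z ≤ L := by linarith
    have hN4 : 4 ≤ 2 ^ (j + 1) := by
      calc 4 = 2 ^ 2 := by norm_num
        _ ≤ 2 ^ (j + 1) := Nat.pow_le_pow_right (by norm_num) (by omega)
    have h12 : L ^ 3 / z ^ 2 ≤ T / z ^ (2 ^ (j + 1) - 1) := by
      obtain ⟨m, hm⟩ : ∃ m, 2 ^ (j + 1) = m + 3 := ⟨2 ^ (j + 1) - 3, by omega⟩
      rw [← hL, hm, show m + 3 - 1 = m + 2 by omega, div_le_div_iff₀ (by positivity) (by positivity)]
      calc L ^ 3 * z ^ (m + 2) = L ^ 3 * z ^ 2 * z ^ m := by ring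
        _ ≤ L ^ 3 * z ^ 2 * L ^ m := by gcongr
        _ = L ^ (m + 3) * z ^ 2 := by ring
    linarith

/-- the noise on the first `n` sites -/
def restr {n : ℕ} (Z : Finset (Fin (n + 1)) → ℝ) (S : Finset (Fin n)) : ℝ :=
  Z (S.map Fin.castSuccEmb)

/-- the last row -/
def bv {n : ℕ} (Z : Finset (Fin (n + 1)) → ℝ) (i : Fin n) : ℝ := Z {Fin.castSucc i, Fin.last n}

theorem wig_symm {n : ℕ} (c : ℝ) (Z : Finset (Fin n) → ℝ) : (wig n c Z).IsSymm := by
  apply Matrix.IsSymm.ext
  intro i j
  simp only [wig, Matrix.of_apply]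
  by_cases h : i = j
  · simp [h]
  · rw [if_neg h, if_neg (Ne.symm h), Finset.pair_comm]

theorem wig_restr {n : ℕ} (Z : Finset (Fin (n + 1)) → ℝ) :
    (wig (n + 1) 0 Z).submatrix Fin.castSucc Fin.castSucc = wig n 0 (restr Z) := by
  ext i j
  simp only [wig, Matrix.submatrix_apply, Matrix.of_apply, restr, Fin.castSucc_inj,
    Finset.map_insert, Finset.map_singleton, Fin.coe_castSuccEmb]

theorem wig_last {n : ℕ} (Z : Finset (Fin (n + 1)) → ℝ) (i : Fin n) :
    wig (n + 1) 0 Z (Fin.castSucc i) (Fin.last n) = bv Z i := by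
  simp only [wig, Matrix.of_apply, bv, zero_add]
  rw [if_neg (Fin.castSucc_lt_last i).ne]

/-- the matrix with a rank one perturbation -/
noncomputable def rk {n : ℕ} (z : ℝ) (Z : Finset (Fin n) → ℝ) (b : Fin n → ℝ) : Matrix (Fin n) (Fin n) ℝ :=
  Matrix.of fun i j => wig n 0 Z i j + z⁻¹ * (b i * b j)

theorem quad_rk {n : ℕ} (z : ℝ) (Z : Finset (Fin n) → ℝ) (b v : Fin n → ℝ) :
    dotProduct v ((rk z Z b).mulVec v) =
      dotProduct v ((wig n 0 Z).mulVec v) + z⁻¹ * (dotProduct b v) ^ 2 := by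
  rw [quad_eq, quad_eq]
  have h1 : z⁻¹ * (dotProduct b v) ^ 2 = ∑ i, ∑ j, v i * (z⁻¹ * (b i * b j)) * v j := by
    unfold dotProduct
    rw [sq, Finset.sum_mul_sum, Finset.mul_sum]
    refine Finset.sum_congr rfl fun i _ => ?_
    rw [Finset.mul_sum]
    exact Finset.sum_congr rfl fun j _ => by ring
  rw [h1, ← Finset.sum_add_distrib]
  refine Finset.sum_congr rfl fun i _ => ?_
  rw [← Finset.sum_add_distrib]
  refine Finset.sum_congr rfl fun j _ => ?_
  simp only [rk, Matrix.of_apply]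
  ring

theorem lmax_rk_le {n : ℕ} (hn : 1 ≤ n) {z : ℝ} (hz : 0 < z) (j : ℕ) (hj : 1 ≤ j)
    (Z : Finset (Fin (n + 1)) → ℝ) :
    lmax (rk z (restr Z) (bv Z)) ≤ lmax (wig (n + 1) 0 Z) +
      ((wig (n + 1) 0 Z) ^ 2 ^ (j + 1)).trace / z ^ (2 ^ (j + 1) - 1) := by
  refine lmax_le_of' _ ⟨⟨0, hn⟩⟩ fun v hv => ?_
  rw [quad_rk]
  have h := schur (wig (n + 1) 0 Z) (wig_symm _ _) (wig_diag _ _) hz j hj v hv
  rw [wig_restr] at h
  simp only [wig_last] at h
  exact h

/-- change of signs -/
def sgnT {n : ℕ} (s : Fin n → ℝ) : (Finset (Fin n) → ℝ) →ₗ[ℝ] (Finset (Fin n) → ℝ) where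
  toFun Z := fun S => (∏ i ∈ S, s i) * Z S
  map_add' Z Y := by funext S; simp only [Pi.add_apply]; ring
  map_smul' a Z := by funext S; simp only [Pi.smul_apply, smul_eq_mul, RingHom.id_apply]; ring

theorem sgnT_mp {n : ℕ} (s : Fin n → ℝ) (hs : ∀ i, s i * s i = 1) :
    MeasurePreserving (sgnT s) (G (Finset (Fin n))) (G (Finset (Fin n))) := by
  apply mp_isom
  intro Z
  refine Finset.sum_congr rfl fun S _ => ?_
  show ((∏ i ∈ S, s i) * Z S) ^ 2 = Z S ^ 2
  rw [mul_pow, sq (∏ i ∈ S, s i), ← Finset.prod_mul_distrib]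
  simp [hs]

theorem rk_sgn {n : ℕ} (z : ℝ) (s : Fin n → ℝ) (hs : ∀ i, s i * s i = 1)
    (Z : Finset (Fin n) → ℝ) (b : Fin n → ℝ) :
    lmax (rk z (sgnT s Z) b) = lmax (rk z Z (fun i => s i * b i)) := by
  rw [← lmax_sign (rk z Z (fun i => s i * b i)) s hs]
  congr 1
  ext i j
  simp only [rk, Matrix.of_apply]
  have h1 : wig n 0 (sgnT s Z) i j = s i * wig n 0 Z i j * s j := by
    simp only [wig, Matrix.of_apply]
    by_cases h : i = j
    · simp [h]
    · rw [if_neg h, if_neg h]
      show 0 + (∏ i ∈ {i, j}, s i) * Z {i, j} = _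
      rw [Finset.prod_pair h]
      ring
  rw [h1]
  have h2 : s i * (z⁻¹ * (s i * b i * (s j * b j))) * s j =
      (s i * s i) * (s j * s j) * (z⁻¹ * (b i * b j)) := by ring
  calc s i * wig n 0 Z i j * s j + z⁻¹ * (b i * b j)
      = s i * wig n 0 Z i j * s j + (s i * s i) * (s j * s j) * (z⁻¹ * (b i * b j)) := by
        rw [hs, hs]; ring
    _ = _ := by rw [← h2]; ring

theorem wig_entry_int {n : ℕ} (c : ℝ) (i j : Fin n) :
    Integrable (fun Z => wig n c Z i j) (G (Finset (Fin n))) := by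
  simp only [wig, Matrix.of_apply]
  by_cases h : i = j
  · simp [h]
  · simp only [if_neg h]
    exact (integrable_const _).add (PF.coord _).integrable

theorem wig_entry_cont {n : ℕ} (c : ℝ) (i j : Fin n) :
    Continuous (fun Z : Finset (Fin n) → ℝ => wig n c Z i j) := by
  simp only [wig, Matrix.of_apply]
  by_cases h : i = j
  · simp only [h, if_true]; exact continuous_const
  · simp only [if_neg h]; fun_prop

theorem lmax_wig_int {n : ℕ} (c : ℝ) :
    Integrable (fun Z => lmax (wig n c Z)) (G (Finset (Fin n))) :=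
  lmax_int _ _ (wig_entry_cont c) (wig_entry_int c)

/-- the first absolute moment -/
noncomputable def m1 : ℝ := ∫ x, |x| ∂(gaussianReal 0 1)

theorem m1_pos : 0 < m1 := gauss_abs_pos

theorem int_abs_coord {κ : Type} [Fintype κ] (i : κ) : ∫ b : κ → ℝ, |b i| ∂(G κ) = m1 := by
  have hmp := measurePreserving_eval (fun _ : κ => gaussianReal 0 1) i
  unfold m1
  rw [← hmp.map_eq, integral_map hmp.measurable.aemeasurable continuous_abs.aestronglyMeasurable]

theorem rk_int_left {n : ℕ} (z : ℝ) (b : Fin n → ℝ) :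
    Integrable (fun Z => lmax (rk z Z b)) (G (Finset (Fin n))) := by
  apply lmax_int
  · intro i j
    simp only [rk, Matrix.of_apply]
    exact (wig_entry_cont 0 i j).add continuous_const
  · intro i j
    simp only [rk, Matrix.of_apply]
    exact (wig_entry_int 0 i j).add (integrable_const _)

theorem prod_coord_int {κ : Type} [Fintype κ] (i j : κ) :
    Integrable (fun b : κ → ℝ => b i * b j) (G κ) := ((PF.coord i).mul (PF.coord j)).integrable

theorem abs_prod_coord_int {κ : Type} [Fintype κ] (i j : κ) :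
    Integrable (fun b : κ → ℝ => |b i| * |b j|) (G κ) := by
  have := (prod_coord_int i j).abs
  simpa [abs_mul] using this

theorem rk_int_right {n : ℕ} (z : ℝ) (Z : Finset (Fin n) → ℝ) :
    Integrable (fun b : Fin n → ℝ => lmax (rk z Z (fun i => |b i|))) (G (Fin n)) := by
  apply lmax_int
  · intro i j
    simp only [rk, Matrix.of_apply]
    fun_prop
  · intro i j
    simp only [rk, Matrix.of_apply]
    exact (integrable_const _).add ((abs_prod_coord_int i j).const_mul _)

theorem rk_int_prod {n : ℕ} (z : ℝ) :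
    Integrable (fun p : (Finset (Fin n) → ℝ) × (Fin n → ℝ) => lmax (rk z p.1 p.2))
      ((G (Finset (Fin n))).prod (G (Fin n))) := by
  apply lmax_int
  · intro i j
    simp only [rk, Matrix.of_apply]
    exact ((wig_entry_cont 0 i j).comp continuous_fst).add (by fun_prop)
  · intro i j
    simp only [rk, Matrix.of_apply]
    have h1 := (wig_entry_int (n := n) 0 i j).comp_fst (G (Fin n))
    have h2 := ((prod_coord_int i j).const_mul z⁻¹).comp_snd (G (Finset (Fin n)))
    exact h1.add h2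

theorem rk_int_prod' {n : ℕ} (z : ℝ) :
    Integrable (fun p : (Finset (Fin n) → ℝ) × (Fin n → ℝ) =>
      lmax (rk z p.1 (fun i => |p.2 i|))) ((G (Finset (Fin n))).prod (G (Fin n))) := by
  apply lmax_int
  · intro i j
    simp only [rk, Matrix.of_apply]
    exact ((wig_entry_cont 0 i j).comp continuous_fst).add (by fun_prop)
  · intro i j
    simp only [rk, Matrix.of_apply]
    have h1 := (wig_entry_int (n := n) 0 i j).comp_fst (G (Fin n))
    have h2 := ((abs_prod_coord_int i j).const_mul z⁻¹).comp_snd (G (Finset (Fin n)))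
    exact h1.add h2

/-- the average over the modulus of the rank one perturbation -/
theorem le_int_rk {n : ℕ} (hn : 1 ≤ n) {z : ℝ} (hz : 0 < z) (Z : Finset (Fin n) → ℝ) :
    lmax (wig n (m1 ^ 2 / z) Z) ≤ ∫ b : Fin n → ℝ, lmax (rk z Z (fun i => |b i|)) ∂(G (Fin n)) := by
  refine lmax_le_of' _ ⟨⟨0, hn⟩⟩ fun v hv => ?_
  have hint1 : Integrable (fun b : Fin n → ℝ => dotProduct (fun i => |b i|) v) (G (Fin n)) := by
    unfold dotProduct
    exact integrable_finsetSum _ fun i _ => ((PF.coord i).integrable.abs).mul_const _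
  have hint2 : Integrable (fun b : Fin n → ℝ => (dotProduct (fun i => |b i|) v) ^ 2)
      (G (Fin n)) := by
    have e : (fun b : Fin n → ℝ => (dotProduct (fun i => |b i|) v) ^ 2) =
        fun b => ∑ i, ∑ j, (|b i| * |b j|) * (v i * v j) := by
      funext b
      unfold dotProduct
      rw [sq, Finset.sum_mul_sum]
      refine Finset.sum_congr rfl fun i _ => Finset.sum_congr rfl fun j _ => by ring
    rw [e]
    exact integrable_finsetSum _ fun i _ => integrable_finsetSum _ fun j _ =>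
      (abs_prod_coord_int i j).mul_const _
  have h1 : ∫ b : Fin n → ℝ, dotProduct (fun i => |b i|) v ∂(G (Fin n)) = m1 * ∑ i, v i := by
    unfold dotProduct
    rw [integral_finsetSum _ fun i _ => ((PF.coord i).integrable.abs).mul_const _, Finset.mul_sum]
    refine Finset.sum_congr rfl fun i _ => ?_
    rw [integral_mul_const, int_abs_coord]
  have h2 : (m1 * ∑ i, v i) ^ 2 ≤
      ∫ b : Fin n → ℝ, (dotProduct (fun i => |b i|) v) ^ 2 ∂(G (Fin n)) := by
    have h3 : 0 ≤ ∫ b : Fin n → ℝ, (dotProduct (fun i => |b i|) v - m1 * ∑ i, v i) ^ 2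
        ∂(G (Fin n)) := integral_nonneg fun b => sq_nonneg _
    have h4 : ∫ b : Fin n → ℝ, (dotProduct (fun i => |b i|) v - m1 * ∑ i, v i) ^ 2
        ∂(G (Fin n)) = ∫ b : Fin n → ℝ, (dotProduct (fun i => |b i|) v) ^ 2 ∂(G (Fin n)) -
          (m1 * ∑ i, v i) ^ 2 := by
      have e : (fun b : Fin n → ℝ => (dotProduct (fun i => |b i|) v - m1 * ∑ i, v i) ^ 2) =
          fun b => (dotProduct (fun i => |b i|) v) ^ 2 -
            2 * (m1 * ∑ i, v i) * dotProduct (fun i => |b i|) v + (m1 * ∑ i, v i) ^ 2 := by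
        funext b; ring
      have hi3 : Integrable (fun b : Fin n → ℝ =>
          2 * (m1 * ∑ i, v i) * dotProduct (fun i => |b i|) v) (G (Fin n)) := hint1.const_mul _
      have hi4 : Integrable (fun b : Fin n → ℝ => (dotProduct (fun i => |b i|) v) ^ 2 -
          2 * (m1 * ∑ i, v i) * dotProduct (fun i => |b i|) v) (G (Fin n)) := hint2.sub hi3
      rw [e, integral_add hi4 (integrable_const _),
        integral_sub hint2 hi3, integral_const_mul, h1, integral_const]
      simp
      ring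
    rw [h4] at h3
    linarith
  have h5 : dotProduct v ((wig n 0 Z).mulVec v) + z⁻¹ * (m1 * ∑ i, v i) ^ 2 ≤
      ∫ b : Fin n → ℝ, lmax (rk z Z (fun i => |b i|)) ∂(G (Fin n)) := by
    calc dotProduct v ((wig n 0 Z).mulVec v) + z⁻¹ * (m1 * ∑ i, v i) ^ 2
        ≤ dotProduct v ((wig n 0 Z).mulVec v) + z⁻¹ *
            ∫ b : Fin n → ℝ, (dotProduct (fun i => |b i|) v) ^ 2 ∂(G (Fin n)) := by
          gcongr
      _ = ∫ b : Fin n → ℝ, (dotProduct v ((wig n 0 Z).mulVec v) + z⁻¹ *
            (dotProduct (fun i => |b i|) v) ^ 2) ∂(G (Fin n)) := by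
          rw [integral_add (integrable_const _) (hint2.const_mul _), integral_const,
            integral_const_mul]
          simp
      _ ≤ _ := by
          refine integral_mono ((integrable_const _).add (hint2.const_mul _)) (rk_int_right z Z)
            fun b => ?_
          simp only
          rw [← quad_rk]
          exact le_lmax _ hv
  refine le_trans ?_ h5
  have h6 : dotProduct v ((wig n (m1 ^ 2 / z) Z).mulVec v) =
      dotProduct v ((wig n 0 Z).mulVec v) + m1 ^ 2 / z * ((∑ i, v i) ^ 2 - 1) := by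
    rw [quad_eq, quad_eq]
    have e1 : (∑ i, v i) ^ 2 - 1 = ∑ i, ∑ j, v i * (if i = j then 0 else 1) * v j := by
      have e2 : ∀ i, ∑ j, v i * (if i = j then 0 else 1) * v j = v i * ∑ j, v j - v i * v i := by
        intro i
        have : ∀ j, v i * (if i = j then 0 else 1) * v j =
            v i * v j - (if i = j then v i * v j else 0) := by
          intro j
          split_ifs <;> ring
        simp only [this]
        rw [Finset.sum_sub_distrib, Finset.mul_sum]
        simp
      simp only [e2]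
      rw [Finset.sum_sub_distrib, ← Finset.sum_mul, sq]
      congr 1
      exact hv.symm
    rw [e1, Finset.mul_sum, ← Finset.sum_add_distrib]
    refine Finset.sum_congr rfl fun i _ => ?_
    rw [Finset.mul_sum, ← Finset.sum_add_distrib]
    refine Finset.sum_congr rfl fun j _ => ?_
    simp only [wig, Matrix.of_apply]
    split_ifs <;> ring
  rw [h6]
  have h7 : 0 ≤ m1 ^ 2 / z := by positivity
  have h8 : z⁻¹ * (m1 * ∑ i, v i) ^ 2 = m1 ^ 2 / z * (∑ i, v i) ^ 2 := by
    field_simp
  rw [h8]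
  nlinarith

/-- **Part A**: a weak signal on `n` sites is dominated by the noise on `n + 1` sites -/
theorem partA {n : ℕ} (hn : 1 ≤ n) {z : ℝ} (hz : 0 < z) (j : ℕ) (hj : 1 ≤ j)
    (htr : Integrable (fun Z => ((wig (n + 1) 0 Z) ^ 2 ^ (j + 1)).trace)
      (G (Finset (Fin (n + 1))))) :
    ∫ Z, lmax (wig n (m1 ^ 2 / z) Z) ∂(G (Finset (Fin n))) ≤
      ∫ Z, lmax (wig (n + 1) 0 Z) ∂(G (Finset (Fin (n + 1)))) +
        (∫ Z, ((wig (n + 1) 0 Z) ^ 2 ^ (j + 1)).trace ∂(G (Finset (Fin (n + 1))))) /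
          z ^ (2 ^ (j + 1) - 1) := by
  have hmp : MeasurePreserving
      (fun (Z : Finset (Fin (n + 1)) → ℝ) => (restr Z, bv Z))
      (G (Finset (Fin (n + 1)))) ((G (Finset (Fin n))).prod (G (Fin n))) := by
    refine mp_split (fun S : Finset (Fin n) => S.map Fin.castSuccEmb)
      (fun i : Fin n => ({Fin.castSucc i, Fin.last n} : Finset (Fin (n + 1)))) ?_ ?_ ?_
    · exact Finset.map_injective _
    · intro i j hij
      simp only at hij
      have h1 : Fin.castSucc i ∈ ({Fin.castSucc j, Fin.last n} : Finset (Fin (n + 1))) := by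
        rw [← hij]; exact Finset.mem_insert_self _ _
      rw [Finset.mem_insert, Finset.mem_singleton] at h1
      rcases h1 with h1 | h1
      · exact Fin.castSucc_injective _ h1
      · exact absurd h1 (Fin.castSucc_lt_last i).ne
    · intro S i h
      have h1 : Fin.last n ∈ S.map Fin.castSuccEmb := by
        rw [h]; simp
      rw [Finset.mem_map] at h1
      obtain ⟨a, _, ha⟩ := h1
      exact (Fin.castSucc_lt_last a).ne ha
  calc ∫ Z, lmax (wig n (m1 ^ 2 / z) Z) ∂(G (Finset (Fin n)))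
      ≤ ∫ Z, ∫ b : Fin n → ℝ, lmax (rk z Z (fun i => |b i|)) ∂(G (Fin n))
          ∂(G (Finset (Fin n))) :=
        integral_mono (lmax_wig_int _) (rk_int_prod' z).integral_prod_left
          fun Z => le_int_rk hn hz Z
    _ = ∫ b : Fin n → ℝ, ∫ Z, lmax (rk z Z (fun i => |b i|)) ∂(G (Finset (Fin n)))
          ∂(G (Fin n)) := integral_integral_swap (rk_int_prod' z)
    _ = ∫ b : Fin n → ℝ, ∫ Z, lmax (rk z Z b) ∂(G (Finset (Fin n))) ∂(G (Fin n)) := by
        congr 1
        funext b
        set s : Fin n → ℝ := fun i => if 0 ≤ b i then 1 else -1 with hs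
        have hs1 : ∀ i, s i * s i = 1 := by
          intro i
          simp only [hs]
          split_ifs <;> norm_num
        have hs2 : (fun i => |b i|) = fun i => s i * b i := by
          funext i
          simp only [hs]
          split_ifs with h
          · rw [abs_of_nonneg h, one_mul]
          · rw [abs_of_neg (not_le.1 h)]; ring
        rw [hs2]
        have h1 : ∫ Z, lmax (rk z Z b) ∂(G (Finset (Fin n))) =
            ∫ Z, lmax (rk z (sgnT s Z) b) ∂(G (Finset (Fin n))) := by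
          conv_lhs => rw [← (sgnT_mp s hs1).map_eq]
          rw [integral_map (sgnT_mp s hs1).measurable.aemeasurable]
          rw [(sgnT_mp s hs1).map_eq]
          exact (rk_int_left z b).aestronglyMeasurable
        rw [h1]
        simp only [rk_sgn z s hs1]
    _ = ∫ p, lmax (rk z p.1 p.2) ∂((G (Finset (Fin n))).prod (G (Fin n))) :=
        (integral_prod_symm _ (rk_int_prod z)).symm
    _ = ∫ Z, lmax (rk z (restr Z) (bv Z)) ∂(G (Finset (Fin (n + 1)))) := by
        rw [← hmp.map_eq, integral_map hmp.measurable.aemeasurable]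
        rw [hmp.map_eq]
        exact (rk_int_prod z).aestronglyMeasurable
    _ ≤ ∫ Z, (lmax (wig (n + 1) 0 Z) +
          ((wig (n + 1) 0 Z) ^ 2 ^ (j + 1)).trace / z ^ (2 ^ (j + 1) - 1))
            ∂(G (Finset (Fin (n + 1)))) := by
        refine integral_mono ?_ ((lmax_wig_int 0).add (htr.div_const _))
          fun Z => lmax_rk_le hn hz j hj Z
        exact hmp.integrable_comp_of_integrable (rk_int_prod z)
    _ = _ := by
        rw [integral_add (lmax_wig_int 0) (htr.div_const _), integral_div]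

end Pool.Agent.V7H95.Kik2
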