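import Pool.Agent.V7H95.Kik2.Test
import Pool.Agent.V7H95.Kik2.Had

set_option autoImplicit false

open MeasureTheory ProbabilityTheory Finset

namespace Pool.Agent.V7H95.Kik2

open Pool.Agent.V7H95.Kik

theorem mp_integral {α β : Type} [MeasurableSpace α] [MeasurableSpace β] {μ : Measure α}
    {ν : Measure β} {f : α → β} (h : MeasurePreserving f μ ν) {g : β → ℝ}
    (hg : AEStronglyMeasurable g ν) : ∫ x, g (f x) ∂μ = ∫ y, g y ∂ν := by
  conv_rhs => rw [← h.map_eq]
  rw [integral_map h.measurable.aemeasurable]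
  rw [h.map_eq]
  exact hg

theorem mp_restr {n : ℕ} : MeasurePreserving (restr (n := n)) (G (Finset (Fin (n + 1))))
    (G (Finset (Fin n))) :=
  mp_comp (fun S : Finset (Fin n) => S.map Fin.castSuccEmb) (Finset.map_injective _)

section
variable {N : ℕ}

/-- a bound of the diagonal -/
noncomputable def Dd (T0 : ℝ) (Z : Finset (Fin N) → ℝ) : ℝ := T0 + ∑ i, goe Z i i ^ 4 / T0 ^ 3

theorem le_Dd {T0 : ℝ} (hT : 0 < T0) (Z : Finset (Fin N) → ℝ) (i : Fin N) :
    |goe Z i i| ≤ Dd T0 Z := by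
  unfold Dd
  have h1 : goe Z i i ^ 4 / T0 ^ 3 ≤ ∑ i, goe Z i i ^ 4 / T0 ^ 3 :=
    Finset.single_le_sum (f := fun i => goe Z i i ^ 4 / T0 ^ 3)
      (fun i _ => by positivity) (Finset.mem_univ i)
  set x := goe Z i i with hx
  have h0 : 0 ≤ x ^ 4 / T0 ^ 3 := by positivity
  rcases le_or_gt |x| T0 with h | h
  · linarith
  · have h2 : |x| ≤ x ^ 4 / T0 ^ 3 := by
      rw [le_div_iff₀ (by positivity)]
      have h3 : x ^ 4 = |x| * |x| ^ 3 := by
        rw [← pow_succ', Even.pow_abs (by decide)]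
      rw [h3]
      exact mul_le_mul_of_nonneg_left (pow_le_pow_left₀ hT.le h.le 3) (abs_nonneg _)
    linarith

/-- the rotation with signs -/
def Om (H : Matrix (Fin N) (Fin N) ℝ) (s : Fin N → Bool) : Matrix (Fin N) (Fin N) ℝ :=
  Matrix.of fun i j => H i j * sg (s j)

theorem Om_orth (H : Matrix (Fin N) (Fin N) ℝ) (hH : H * H.transpose = 1) (s : Fin N → Bool) :
    Om H s * (Om H s).transpose = 1 := by
  rw [← hH]
  ext i j
  rw [Matrix.mul_apply, Matrix.mul_apply]
  refine Finset.sum_congr rfl fun k _ => ?_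
  simp only [Matrix.transpose_apply, Om, Matrix.of_apply]
  calc H i k * sg (s k) * (H j k * sg (s k)) = H i k * H j k * (sg (s k) * sg (s k)) := by ring
    _ = _ := by rw [sg_sq, mul_one]

theorem Om_mulVec (H : Matrix (Fin N) (Fin N) ℝ) (s : Fin N → Bool) (v : Fin N → ℝ) (i : Fin N) :
    (Om H s).mulVec v i = ∑ j, (H i j * v j) * sg (s j) := by
  simp only [Matrix.mulVec, dotProduct, Om, Matrix.of_apply]
  exact Finset.sum_congr rfl fun j _ => by ring

theorem dot_orth (O : Matrix (Fin N) (Fin N) ℝ) (hO : O * O.transpose = 1) (v : Fin N → ℝ) :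
    dotProduct (O.mulVec v) (O.mulVec v) = dotProduct v v := by
  have hO' : O.transpose * O = 1 := mul_eq_one_comm.1 hO
  rw [Matrix.dotProduct_mulVec, ← Matrix.mulVec_transpose, Matrix.mulVec_mulVec, hO',
    Matrix.one_mulVec]

end

section
variable {n m : ℕ}

theorem avg (H : Matrix (Fin (n + 1)) (Fin (n + 1)) ℝ) (hH : H * H.transpose = 1)
    (hflat : ∀ i j, H i j ^ 2 = 1 / ((n : ℝ) + 1)) {T0 : ℝ} (hT : 0 < T0)
    (Z : Finset (Fin (n + 1)) → ℝ) :
    ((m : ℝ) + 1) * (2 ^ (n + 1) * lmax (goe Z) -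
      ∑ s : Fin (n + 1) → Bool, Dd T0 (rotT (Om H s) Z) -
        ((m : ℝ) + 3) ^ 2 * Real.sqrt (fro (goe Z)) * (2 ^ (n + 1) * (4 / ((n : ℝ) + 1)))) ≤
      ∑ s : Fin (n + 1) → Bool, lmax (kik n 2 (m + 1) 0 (restr (rotT (Om H s) Z))) := by
  obtain ⟨v, hv, hev⟩ := exists_top (by omega) (goe Z) (goe_symm Z)
  have hn0 : (0 : ℝ) < (n : ℝ) + 1 := by positivity
  -- each sign vector
  have h1 : ∀ s : Fin (n + 1) → Bool,
      ((m : ℝ) + 1) * (lmax (goe Z) - Dd T0 (rotT (Om H s) Z) -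
        ((m : ℝ) + 3) ^ 2 * Real.sqrt (fro (goe Z)) *
          ((Om H s).mulVec v (Fin.last n) ^ 2 + ∑ i, (Om H s).mulVec v i ^ 4)) ≤
        lmax (kik n 2 (m + 1) 0 (restr (rotT (Om H s) Z))) := by
    intro s
    have hO := Om_orth H hH s
    have hO' : (Om H s).transpose * Om H s = 1 := mul_eq_one_comm.1 hO
    have h2 : (goe (rotT (Om H s) Z)).mulVec ((Om H s).mulVec v) =
        lmax (goe Z) • (Om H s).mulVec v := by
      rw [goe_rotT, Matrix.mulVec_mulVec, Matrix.mul_assoc, hO', Matrix.mul_one,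
        ← Matrix.mulVec_mulVec, hev, Matrix.mulVec_smul]
    have h3 := test (m := m) (rotT (Om H s) Z) (by rw [dot_orth _ hO, hv]) h2
      (fun i => le_Dd hT (rotT (Om H s) Z) i)
    rw [goe_rotT, fro_conj _ _ hO] at h3
    exact h3
  refine le_trans ?_ (Finset.sum_le_sum fun s _ => h1 s)
  rw [← Finset.mul_sum]
  apply mul_le_mul_of_nonneg_left _ (by positivity)
  rw [Finset.sum_sub_distrib, Finset.sum_sub_distrib, ← Finset.mul_sum, Finset.sum_const,
    nsmul_eq_mul]
  have hcard : ((Finset.univ : Finset (Fin (n + 1) → Bool)).card : ℝ) = 2 ^ (n + 1) := by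
    simp
  rw [hcard]
  have h4 : ∀ i, ∑ j, (H i j * v j) ^ 2 = 1 / ((n : ℝ) + 1) := by
    intro i
    simp only [mul_pow, hflat]
    rw [← Finset.mul_sum]
    have : ∑ j, v j ^ 2 = 1 := by
      rw [← hv]
      unfold dotProduct
      exact Finset.sum_congr rfl fun j _ => by ring
    rw [this, mul_one]
  have h5 : ∑ s : Fin (n + 1) → Bool,
      ((Om H s).mulVec v (Fin.last n) ^ 2 + ∑ i, (Om H s).mulVec v i ^ 4) ≤
      2 ^ (n + 1) * (4 / ((n : ℝ) + 1)) := by
    rw [Finset.sum_add_distrib, Finset.sum_comm]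
    simp only [Om_mulVec]
    rw [rad2, h4]
    have h6 : ∀ i, ∑ s : Fin (n + 1) → Bool, (∑ j, (H i j * v j) * sg (s j)) ^ 4 ≤
        2 ^ (n + 1) * (3 * (1 / ((n : ℝ) + 1)) ^ 2) := by
      intro i
      have := rad4 (n + 1) (fun j => H i j * v j)
      rw [h4] at this
      exact this
    calc (2 : ℝ) ^ (n + 1) * (1 / ((n : ℝ) + 1)) +
          ∑ i, ∑ s : Fin (n + 1) → Bool, (∑ j, (H i j * v j) * sg (s j)) ^ 4
        ≤ (2 : ℝ) ^ (n + 1) * (1 / ((n : ℝ) + 1)) +
          ∑ _i : Fin (n + 1), (2 : ℝ) ^ (n + 1) * (3 * (1 / ((n : ℝ) + 1)) ^ 2) := by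
          have := Finset.sum_le_sum fun i (_ : i ∈ (univ : Finset (Fin (n + 1)))) => h6 i
          linarith
      _ = _ := by
          rw [Finset.sum_const, Finset.card_univ, Fintype.card_fin, nsmul_eq_mul]
          push_cast
          field_simp
          norm_num
  have h6 : 0 ≤ ((m : ℝ) + 3) ^ 2 * Real.sqrt (fro (goe Z)) := by positivity
  have h7 := mul_le_mul_of_nonneg_left h5 h6
  linarith

/-- the second moment -/
noncomputable def M2 : ℝ := ∫ x, x ^ 2 ∂(gaussianReal 0 1)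

/-- the fourth moment -/
noncomputable def M4 : ℝ := ∫ x, x ^ 4 ∂(gaussianReal 0 1)

theorem int_coord_pow {κ : Type} [Fintype κ] (i : κ) (q : ℕ) :
    ∫ b : κ → ℝ, b i ^ q ∂(G κ) = ∫ x, x ^ q ∂(gaussianReal 0 1) := by
  have hmp := measurePreserving_eval (fun _ : κ => gaussianReal 0 1) i
  exact mp_integral hmp (continuous_pow q).aestronglyMeasurable

theorem pow_coord_PF {κ : Type} (i : κ) (q : ℕ) : PF (fun b : κ → ℝ => b i ^ q) := by
  induction q with
  | zero => simpa using PF.const 1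
  | succ q ih => simp only [pow_succ]; exact ih.mul (PF.coord i)

theorem goe_entry_pow_int {N : ℕ} (i j : Fin N) (q : ℕ) :
    Integrable (fun Z : Finset (Fin N) → ℝ => goe Z i j ^ q) (G (Finset (Fin N))) := by
  simp only [goe, Matrix.of_apply, mul_pow]
  exact ((pow_coord_PF _ q).integrable).const_mul _

theorem goe_entry_cont {N : ℕ} (i j : Fin N) :
    Continuous (fun Z : Finset (Fin N) → ℝ => goe Z i j) := by
  simp only [goe, Matrix.of_apply]
  fun_prop

theorem lmax_goe_int {N : ℕ} : Integrable (fun Z => lmax (goe Z)) (G (Finset (Fin N))) :=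
  lmax_int _ _ goe_entry_cont fun i j => by
    have := goe_entry_pow_int i j 1
    simpa using this

theorem Dd_int {N : ℕ} (T0 : ℝ) : Integrable (Dd (N := N) T0) (G (Finset (Fin N))) := by
  unfold Dd
  exact (integrable_const _).add
    (integrable_finsetSum _ fun i _ => (goe_entry_pow_int i i 4).div_const _)

theorem Dd_integral {N : ℕ} (T0 : ℝ) :
    ∫ Z, Dd T0 Z ∂(G (Finset (Fin N))) = T0 + N * (4 * M4 / T0 ^ 3) := by
  unfold Dd
  rw [integral_add (integrable_const _)
    (integrable_finsetSum _ fun i _ => (goe_entry_pow_int i i 4).div_const _), integral_const,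
    integral_finsetSum _ fun i _ => (goe_entry_pow_int i i 4).div_const _]
  have h1 : ∀ i : Fin N, ∫ Z, goe Z i i ^ 4 / T0 ^ 3 ∂(G (Finset (Fin N))) = 4 * M4 / T0 ^ 3 := by
    intro i
    rw [integral_div]
    congr 1
    simp only [goe, Matrix.of_apply, mul_pow, cf, if_true]
    rw [integral_const_mul, int_coord_pow]
    have : Real.sqrt 2 ^ 4 = 4 := by
      have h2 : Real.sqrt 2 ^ 2 = 2 := Real.sq_sqrt (by norm_num)
      calc Real.sqrt 2 ^ 4 = (Real.sqrt 2 ^ 2) ^ 2 := by ring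
        _ = 4 := by rw [h2]; norm_num
    rw [this, M4]
  simp only [h1]
  simp

theorem fro_int {N : ℕ} : Integrable (fun Z => fro (goe Z)) (G (Finset (Fin N))) := by
  unfold fro
  exact integrable_finsetSum _ fun i _ => integrable_finsetSum _ fun j _ => goe_entry_pow_int i j 2

theorem fro_integral_le {N : ℕ} :
    ∫ Z, fro (goe Z) ∂(G (Finset (Fin N))) ≤ N * (N * (2 * M2)) := by
  unfold fro
  rw [integral_finsetSum _ fun i _ => integrable_finsetSum _ fun j _ => goe_entry_pow_int i j 2]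
  have h1 : ∀ i j : Fin N, ∫ Z, goe Z i j ^ 2 ∂(G (Finset (Fin N))) ≤ 2 * M2 := by
    intro i j
    simp only [goe, Matrix.of_apply, mul_pow]
    rw [integral_const_mul, int_coord_pow]
    have hM : 0 ≤ M2 := integral_nonneg fun x => sq_nonneg x
    have : cf i j ^ 2 ≤ 2 := by
      unfold cf
      split_ifs
      · rw [Real.sq_sqrt (by norm_num)]
      · norm_num
    exact mul_le_mul_of_nonneg_right this hM
  calc ∑ i : Fin N, ∫ Z, ∑ j : Fin N, goe Z i j ^ 2 ∂(G (Finset (Fin N)))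
      ≤ ∑ _i : Fin N, (N : ℝ) * (2 * M2) := by
        refine Finset.sum_le_sum fun i _ => ?_
        rw [integral_finsetSum _ fun j _ => goe_entry_pow_int i j 2]
        refine (Finset.sum_le_sum fun j _ => h1 i j).trans ?_
        simp
    _ = _ := by simp

end

end Pool.Agent.V7H95.Kik2
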