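import Pool.Agent.V7H95.Kik2.PartA

set_option autoImplicit false

open MeasureTheory ProbabilityTheory Finset Filter Topology

namespace Pool.Agent.V7H95.Kik2

open Pool.Agent.V7H95.Kik

/-- single vertices -/
def single {n : ℕ} (i : Fin n) : St n 1 := ⟨{i}, Finset.card_singleton i⟩

theorem single_bij {n : ℕ} : Function.Bijective (single (n := n)) := by
  constructor
  · intro i j h
    have := congrArg Subtype.val h
    exact Finset.singleton_injective this
  · rintro ⟨I, hI⟩
    obtain ⟨i, rfl⟩ := Finset.card_eq_one.1 hI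
    exact ⟨i, rfl⟩

/-- the equivalence -/
noncomputable def eqv (n : ℕ) : Fin n ≃ St n 1 := Equiv.ofBijective _ single_bij

theorem wig_kik {n : ℕ} (c : ℝ) (Z : Finset (Fin n) → ℝ) (i j : Fin n) :
    wig n c Z i j = kik n 2 1 c Z (single i) (single j) := by
  simp only [wig, kik, single, Matrix.of_apply]
  by_cases h : i = j
  · subst h
    simp
  · have h1 : symmDiff ({i} : Finset (Fin n)) {j} = {i, j} := by
      ext x
      simp only [Finset.mem_symmDiff, Finset.mem_insert, Finset.mem_singleton]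
      constructor
      · tauto
      · rintro (rfl | rfl)
        · exact Or.inl ⟨rfl, h⟩
        · exact Or.inr ⟨rfl, fun h' => h h'.symm⟩
    rw [h1, if_neg h, if_pos (Finset.card_pair h)]

theorem wig_pow {n : ℕ} (Z : Finset (Fin n) → ℝ) (q : ℕ) (i j : Fin n) :
    (wig n 0 Z ^ q) i j = (kik n 2 1 0 Z ^ q) (single i) (single j) := by
  induction q generalizing i with
  | zero =>
    simp only [pow_zero, Matrix.one_apply]
    by_cases h : i = j
    · simp [h]
    · rw [if_neg h, if_neg (fun h' => h (single_bij.1 h'))]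
  | succ q ih =>
    rw [pow_succ', pow_succ', Matrix.mul_apply, Matrix.mul_apply, ← (eqv n).sum_comp]
    refine Finset.sum_congr rfl fun k _ => ?_
    rw [ih, wig_kik]
    rfl

theorem wig_trace {n : ℕ} (Z : Finset (Fin n) → ℝ) (q : ℕ) :
    (wig n 0 Z ^ q).trace = ∑ I : St n 1, (kik n 2 1 0 Z ^ q) I I := by
  unfold Matrix.trace
  rw [← (eqv n).sum_comp]
  refine Finset.sum_congr rfl fun k _ => ?_
  rw [Matrix.diag_apply, wig_pow]
  rfl

theorem wig_trace_int {n : ℕ} (q : ℕ) :
    Integrable (fun Z => (wig n 0 Z ^ q).trace) (G (Finset (Fin n))) := by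
  simp only [wig_trace]
  exact integrable_finsetSum _ fun I _ => (kik_pow_PF _ I I).integrable

theorem wig_trace_le {n : ℕ} (q : ℕ) {b y : ℝ} (hb : 0 < b) (hy : 1 ≤ y) :
    ∫ Z, (wig n 0 Z ^ q).trace ∂(G (Finset (Fin n))) ≤ n * Lam n 1 1 q b y ^ q := by
  simp only [wig_trace]
  rw [integral_finsetSum _ fun I _ => (kik_pow_PF _ I I).integrable]
  simp only [integral_pow_diag]
  refine (Finset.sum_le_sum fun I _ => F_diag_le (k := 1) le_rfl I hb hy).trans ?_
  rw [Finset.sum_const, nsmul_eq_mul]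
  have : (Finset.univ : Finset (St n 1)).card = n := by
    rw [Finset.card_univ, Fintype.card_finset_len, Fintype.card_fin, Nat.choose_one_right]
  rw [this]

/-- the trace is negligible above the edge -/
theorem trace_small {K : ℝ} (hK : 2 < K) {ε : ℝ} (hε : 0 < ε) :
    ∀ᶠ n : ℕ in atTop, ∃ j : ℕ, 1 ≤ j ∧
      (∫ Z, (wig n 0 Z ^ 2 ^ (j + 1)).trace ∂(G (Finset (Fin n)))) /
        (K * Real.sqrt n) ^ (2 ^ (j + 1) - 1) ≤ ε * Real.sqrt n := by
  set η := (K / 2 - 1) / 2 with hη
  have hη0 : 0 < η := by rw [hη]; linarith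
  have hK0 : 0 < K := by linarith
  have h1 : 2 * (1 + η) < K := by rw [hη]; linarith
  have h2 : Tendsto (fun n : ℕ => 1 + 6 * ((Real.log n) ^ 2 / Real.sqrt n)) atTop (𝓝 1) := by
    have := (tendsto_log_sq_div.const_mul (6 : ℝ)).const_add 1
    simpa using this
  have h3 : (1 : ℝ) < K / (2 * (1 + η)) := by rwa [one_lt_div (by positivity)]
  have h4 := tendsto_super 1 hη0
  have h5 : (0 : ℝ) < ε / K := by positivity
  filter_upwards [h2.eventually (gt_mem_nhds h3), h4.eventually (gt_mem_nhds h5),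
    tendsto_log.eventually_ge_atTop 2, eventually_ge_atTop 1] with n h6 h7 h8 hn
  have hn0 : (0 : ℝ) < n := by exact_mod_cast hn
  have hn1 : (1 : ℝ) ≤ n := by exact_mod_cast hn
  have hy : 1 ≤ Real.sqrt n := by rw [Real.one_le_sqrt]; exact hn1
  have hy0 : 0 < Real.sqrt n := by linarith
  have hyy : Real.sqrt n * Real.sqrt n = n := Real.mul_self_sqrt hn0.le
  obtain ⟨j, hj1, hj2⟩ := exists_pow n (by linarith)
  have hj : 1 ≤ j := by
    by_contra hc
    have hj0 : j = 0 := by omega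
    rw [hj0] at hj1
    norm_num at hj1
    nlinarith
  refine ⟨j, hj, ?_⟩
  set N : ℕ := 2 ^ (j + 1) with hN
  have hN1 : 1 ≤ N := Nat.one_le_two_pow
  have hN1' : (1 : ℝ) ≤ N := by exact_mod_cast hN1
  obtain ⟨b, hb, hLam⟩ := Lam_opt (n := n) (l := 1) (k := 1) (N := N) le_rfl le_rfl hn hy
  set L := Lam n 1 1 N b (Real.sqrt n) with hL
  have hL0 : 0 ≤ L := by rw [hL]; unfold Lam; positivity
  have hLle : L ≤ 2 * Real.sqrt n * (1 + 6 * ((Real.log n) ^ 2 / Real.sqrt n)) := by
    rw [hLam]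
    have e1 : ((Nat.choose 1 1 : ℝ) * ((n + (((1 : ℕ) : ℝ) + 2 * ((1 : ℕ) : ℝ) * N) *
        Real.sqrt n) ^ 1 / (Nat.factorial 1 : ℝ))) * (((1 : ℕ) : ℝ) / ((1 : ℕ) : ℝ) + N / Real.sqrt n) ≤
        (Real.sqrt n * (1 + 6 * ((Real.log n) ^ 2 / Real.sqrt n))) ^ 2 := by
      simp only [Nat.choose_self, Nat.factorial_one, Nat.cast_one, one_mul, mul_one, pow_one,
        div_one]
      have e2 : (N : ℝ) / Real.sqrt n ≤ 2 * ((Real.log n) ^ 2 / Real.sqrt n) := by
        rw [← mul_div_assoc]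
        exact div_le_div_of_nonneg_right hj2 hy0.le
      set x := (Real.log n) ^ 2 / Real.sqrt n with hx
      have hx0 : 0 ≤ x := by positivity
      have e3 : (n : ℝ) + (1 + 2 * N) * Real.sqrt n ≤ n * (1 + 6 * x) := by
        have e4 : (1 + 2 * (N : ℝ)) * Real.sqrt n ≤ 3 * N * Real.sqrt n := by
          apply mul_le_mul_of_nonneg_right _ hy0.le
          linarith
        have e5 : (N : ℝ) ≤ 2 * x * Real.sqrt n := by
          rwa [div_le_iff₀ hy0] at e2
        have e6 : 3 * (N : ℝ) * Real.sqrt n ≤ 3 * (2 * x * Real.sqrt n) * Real.sqrt n := by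
          gcongr
        have e7 : 3 * (2 * x * Real.sqrt n) * Real.sqrt n = n * (6 * x) := by
          calc 3 * (2 * x * Real.sqrt n) * Real.sqrt n =
              (Real.sqrt n * Real.sqrt n) * (6 * x) := by ring
            _ = _ := by rw [hyy]
        linarith
      calc ((n : ℝ) + (1 + 2 * N) * Real.sqrt n) * (1 + N / Real.sqrt n)
          ≤ (n * (1 + 6 * x)) * (1 + 6 * x) := by
            gcongr
            linarith
        _ = (Real.sqrt n * Real.sqrt n) * (1 + 6 * x) * (1 + 6 * x) := by rw [hyy]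
        _ = _ := by ring
    have e8 := Real.sqrt_le_sqrt e1
    rw [Real.sqrt_sq (by positivity)] at e8
    calc _ ≤ 2 * (Real.sqrt n * (1 + 6 * ((Real.log n) ^ 2 / Real.sqrt n))) :=
          mul_le_mul_of_nonneg_left e8 (by norm_num)
      _ = _ := by ring
  have hLK : L ≤ K * Real.sqrt n / (1 + η) := by
    refine hLle.trans ?_
    rw [le_div_iff₀ (by positivity)]
    have h9 := h6.le
    rw [le_div_iff₀ (by positivity)] at h9
    calc 2 * Real.sqrt n * (1 + 6 * ((Real.log n) ^ 2 / Real.sqrt n)) * (1 + η)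
        = ((1 + 6 * ((Real.log n) ^ 2 / Real.sqrt n)) * (2 * (1 + η))) * Real.sqrt n := by ring
      _ ≤ K * Real.sqrt n := mul_le_mul_of_nonneg_right h9 hy0.le
  have htr := wig_trace_le (n := n) N (b := b) (y := Real.sqrt n) hb hy
  rw [← hL] at htr
  have hexp : ((1 + η) ^ N)⁻¹ ≤ Real.exp (-(Real.log (1 + η) * (Real.log n) ^ 2)) := by
    rw [Real.exp_neg]
    apply inv_anti₀ (Real.exp_pos _)
    rw [Real.exp_mul, Real.exp_log (show (0 : ℝ) < 1 + η by linarith),
      ← Real.rpow_natCast (1 + η) N]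
    exact Real.rpow_le_rpow_of_exponent_le (show (1 : ℝ) ≤ 1 + η by linarith) hj1
  have hz : 0 < K * Real.sqrt n := by positivity
  calc (∫ Z, (wig n 0 Z ^ N).trace ∂(G (Finset (Fin n)))) / (K * Real.sqrt n) ^ (N - 1)
      ≤ (n * (K * Real.sqrt n / (1 + η)) ^ N) / (K * Real.sqrt n) ^ (N - 1) := by
        apply div_le_div_of_nonneg_right _ (by positivity)
        exact htr.trans (by gcongr)
    _ = (K * Real.sqrt n) * ((n : ℝ) ^ 1 * ((1 + η) ^ N)⁻¹) := by
        obtain ⟨m, hm⟩ : ∃ m, N = m + 1 := ⟨N - 1, by omega⟩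
        rw [hm, Nat.add_sub_cancel, div_pow]
        have h3 : (1 + η) ≠ 0 := by positivity
        have h4 := hz.ne'
        field_simp
        ring
    _ ≤ (K * Real.sqrt n) * ((n : ℝ) ^ 1 *
          Real.exp (-(Real.log (1 + η) * (Real.log n) ^ 2))) := by gcongr
    _ ≤ (K * Real.sqrt n) * (ε / K) := mul_le_mul_of_nonneg_left h7.le hz.le
    _ = ε * Real.sqrt n := by field_simp

end Pool.Agent.V7H95.Kik2
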