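import Pool.Agent.V7H95.Kik2.PartB
import Pool.Agent.V7H95.Kik2.TraceB

set_option autoImplicit false

open MeasureTheory ProbabilityTheory Finset Filter Topology

namespace Pool.Agent.V7H95.Kik2

open Pool.Agent.V7H95.Kik

section
variable {n m : ℕ}

theorem kik_restr_int : Integrable (fun Z => lmax (kik n 2 (m + 1) 0 (restr Z)))
    (G (Finset (Fin (n + 1)))) :=
  mp_restr.integrable_comp_of_integrable (lmax_kik_integrable 2 0)

theorem kik_restr_integral :
    ∫ Z, lmax (kik n 2 (m + 1) 0 (restr Z)) ∂(G (Finset (Fin (n + 1)))) = Emax n 2 (m + 1) 0 :=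
  mp_integral mp_restr (lmax_kik_integrable 2 0).aestronglyMeasurable

/-- the lower bound of the noise -/
theorem emax_lower {k : ℕ} (hn : n + 1 = 2 ^ k) {T0 : ℝ} (hT : 0 < T0) :
    ((m : ℝ) + 1) * (∫ Z, lmax (goe Z) ∂(G (Finset (Fin (n + 1)))) -
      (T0 + ((n + 1 : ℕ) : ℝ) * (4 * M4 / T0 ^ 3)) -
        ((m : ℝ) + 3) ^ 2 * (2 * (1 + 2 * M2))) ≤ Emax n 2 (m + 1) 0 := by
  obtain ⟨H, hH, hflat⟩ := exists_flat k n hn
  have hn0 : (0 : ℝ) < (n : ℝ) + 1 := by positivity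
  have h2 : (0 : ℝ) < 2 ^ (n + 1) := by positivity
  have hmp : ∀ s, MeasurePreserving (rotT (Om H s)) (G (Finset (Fin (n + 1))))
      (G (Finset (Fin (n + 1)))) := fun s => rotT_mp _ (Om_orth H hH s)
  have hD1 : ∀ s, Integrable (fun Z => Dd T0 (rotT (Om H s) Z)) (G (Finset (Fin (n + 1)))) :=
    fun s => (hmp s).integrable_comp_of_integrable (Dd_int T0)
  have hD2 : ∀ s, ∫ Z, Dd T0 (rotT (Om H s) Z) ∂(G (Finset (Fin (n + 1)))) =
      T0 + ((n + 1 : ℕ) : ℝ) * (4 * M4 / T0 ^ 3) := fun s => by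
    rw [mp_integral (hmp s) (Dd_int T0).aestronglyMeasurable, Dd_integral]
  have hK1 : ∀ s, Integrable (fun Z => lmax (kik n 2 (m + 1) 0 (restr (rotT (Om H s) Z))))
      (G (Finset (Fin (n + 1)))) := fun s => (hmp s).integrable_comp_of_integrable kik_restr_int
  have hK2 : ∀ s, ∫ Z, lmax (kik n 2 (m + 1) 0 (restr (rotT (Om H s) Z)))
      ∂(G (Finset (Fin (n + 1)))) = Emax n 2 (m + 1) 0 := fun s => by
    rw [← kik_restr_integral]
    exact mp_integral (hmp s) kik_restr_int.aestronglyMeasurable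
  have hpt : ∀ Z : Finset (Fin (n + 1)) → ℝ,
      ((m : ℝ) + 1) * (2 ^ (n + 1) * lmax (goe Z) -
      ∑ s : Fin (n + 1) → Bool, Dd T0 (rotT (Om H s) Z) -
        (((m : ℝ) + 3) ^ 2 * 2 * 2 ^ (n + 1) + ((m : ℝ) + 3) ^ 2 * 2 * 2 ^ (n + 1) /
          ((n : ℝ) + 1) ^ 2 * fro (goe Z))) ≤
      ∑ s : Fin (n + 1) → Bool, lmax (kik n 2 (m + 1) 0 (restr (rotT (Om H s) Z))) := by
    intro Z
    refine le_trans ?_ (avg H hH hflat hT Z)
    apply mul_le_mul_of_nonneg_left _ (by positivity)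
    have h3 : Real.sqrt (fro (goe Z)) ≤ (((n : ℝ) + 1) + fro (goe Z) / ((n : ℝ) + 1)) / 2 := by
      have h4 : Real.sqrt (fro (goe Z)) ^ 2 = fro (goe Z) := Real.sq_sqrt (fro_nonneg _)
      rw [le_div_iff₀ (by norm_num), ← sub_nonneg]
      have h5 : ((n : ℝ) + 1) + fro (goe Z) / ((n : ℝ) + 1) - Real.sqrt (fro (goe Z)) * 2 =
          (Real.sqrt (fro (goe Z)) - ((n : ℝ) + 1)) ^ 2 / ((n : ℝ) + 1) := by
        rw [sub_sq, h4]
        field_simp
        ring
      rw [h5]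
      positivity
    have h4 : ((m : ℝ) + 3) ^ 2 * Real.sqrt (fro (goe Z)) * (2 ^ (n + 1) * (4 / ((n : ℝ) + 1))) ≤
        ((m : ℝ) + 3) ^ 2 * ((((n : ℝ) + 1) + fro (goe Z) / ((n : ℝ) + 1)) / 2) *
          (2 ^ (n + 1) * (4 / ((n : ℝ) + 1))) := by gcongr
    have h5 : ((m : ℝ) + 3) ^ 2 * ((((n : ℝ) + 1) + fro (goe Z) / ((n : ℝ) + 1)) / 2) *
          (2 ^ (n + 1) * (4 / ((n : ℝ) + 1))) =
        ((m : ℝ) + 3) ^ 2 * 2 * 2 ^ (n + 1) + ((m : ℝ) + 3) ^ 2 * 2 * 2 ^ (n + 1) /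
          ((n : ℝ) + 1) ^ 2 * fro (goe Z) := by
      field_simp
      ring
    linarith
  have hi1 : Integrable (fun Z : Finset (Fin (n + 1)) → ℝ => 2 ^ (n + 1) * lmax (goe Z))
      (G (Finset (Fin (n + 1)))) := lmax_goe_int.const_mul _
  have hi2 : Integrable (fun Z => ∑ s : Fin (n + 1) → Bool, Dd T0 (rotT (Om H s) Z))
      (G (Finset (Fin (n + 1)))) := integrable_finsetSum _ fun s _ => hD1 s
  have hi3 : Integrable (fun Z : Finset (Fin (n + 1)) → ℝ =>
      (((m : ℝ) + 3) ^ 2 * 2 * 2 ^ (n + 1) + ((m : ℝ) + 3) ^ 2 * 2 * 2 ^ (n + 1) /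
          ((n : ℝ) + 1) ^ 2 * fro (goe Z))) (G (Finset (Fin (n + 1)))) :=
    (integrable_const _).add (fro_int.const_mul _)
  have hi4 : Integrable (fun Z : Finset (Fin (n + 1)) → ℝ => 2 ^ (n + 1) * lmax (goe Z) -
      ∑ s : Fin (n + 1) → Bool, Dd T0 (rotT (Om H s) Z)) (G (Finset (Fin (n + 1)))) :=
    hi1.sub hi2
  have hint := integral_mono ((hi4.sub hi3).const_mul ((m : ℝ) + 1))
    (integrable_finsetSum _ fun s _ => hK1 s) hpt
  simp only [Pi.sub_apply] at hint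
  rw [integral_const_mul, integral_sub hi4 hi3, integral_sub hi1 hi2, integral_const_mul,
    integral_finsetSum _ fun s _ => hD1 s, integral_finsetSum _ fun s _ => hK1 s,
    integral_add (integrable_const _) (fro_int.const_mul _)] at hint
  rw [integral_const_mul (((m : ℝ) + 3) ^ 2 * 2 * 2 ^ (n + 1) / ((n : ℝ) + 1) ^ 2)
    (fun Z => fro (goe Z))] at hint
  simp only [hD2, hK2, Finset.sum_const, nsmul_eq_mul, integral_const, probReal_univ,
    one_smul, Finset.card_univ, Fintype.card_pi, Fintype.card_bool,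
    Finset.prod_const, Fintype.card_fin, Nat.cast_pow, Nat.cast_ofNat] at hint
  have h3 := fro_integral_le (N := n + 1)
  set F := ∫ Z, fro (goe Z) ∂(G (Finset (Fin (n + 1)))) with hF
  set E1 := ∫ Z, lmax (goe Z) ∂(G (Finset (Fin (n + 1)))) with hE1
  set ED := T0 + ((n + 1 : ℕ) : ℝ) * (4 * M4 / T0 ^ 3) with hED
  have h4 : ((m : ℝ) + 3) ^ 2 * 2 * 2 ^ (n + 1) / ((n : ℝ) + 1) ^ 2 * F ≤
      2 ^ (n + 1) * (((m : ℝ) + 3) ^ 2 * 2 * (2 * M2)) := by
    calc ((m : ℝ) + 3) ^ 2 * 2 * 2 ^ (n + 1) / ((n : ℝ) + 1) ^ 2 * F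
        ≤ ((m : ℝ) + 3) ^ 2 * 2 * 2 ^ (n + 1) / ((n : ℝ) + 1) ^ 2 *
          (((n + 1 : ℕ) : ℝ) * (((n + 1 : ℕ) : ℝ) * (2 * M2))) := by gcongr
      _ = _ := by
          push_cast
          field_simp
  have h5 : ((m : ℝ) + 1) * (2 ^ (n + 1) * (E1 - ED - ((m : ℝ) + 3) ^ 2 * (2 * (1 + 2 * M2)))) ≤
      2 ^ (n + 1) * Emax n 2 (m + 1) 0 := by
    refine le_trans ?_ hint
    apply mul_le_mul_of_nonneg_left _ (by positivity)
    linarith
  have h6 : 2 ^ (n + 1) * (((m : ℝ) + 1) * (E1 - ED - ((m : ℝ) + 3) ^ 2 * (2 * (1 + 2 * M2)))) ≤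
      2 ^ (n + 1) * Emax n 2 (m + 1) 0 := by
    refine le_trans (le_of_eq ?_) h5
    ring
  exact le_of_mul_le_mul_left h6 h2

/-- change of sign of the diagonal -/
def flipT (N : ℕ) : (Finset (Fin N) → ℝ) →ₗ[ℝ] (Finset (Fin N) → ℝ) where
  toFun Z := fun S => (if S.card = 1 then -1 else 1) * Z S
  map_add' Z Y := by funext S; simp only [Pi.add_apply]; ring
  map_smul' a Z := by funext S; simp only [Pi.smul_apply, smul_eq_mul, RingHom.id_apply]; ring

theorem flipT_mp (N : ℕ) :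
    MeasurePreserving (flipT N) (G (Finset (Fin N))) (G (Finset (Fin N))) := by
  apply mp_isom
  intro Z
  refine Finset.sum_congr rfl fun S _ => ?_
  show ((if S.card = 1 then -1 else 1) * Z S) ^ 2 = Z S ^ 2
  split_ifs <;> ring

/-- the diagonal does not decrease the norm -/
theorem wig_le_goe {N : ℕ} (hN : 1 ≤ N) :
    ∫ Z, lmax (wig N 0 Z) ∂(G (Finset (Fin N))) ≤ ∫ Z, lmax (goe Z) ∂(G (Finset (Fin N))) := by
  have h1 : ∀ Z : Finset (Fin N) → ℝ,
      lmax (wig N 0 Z) ≤ 2⁻¹ * (lmax (goe Z) + lmax (goe (flipT N Z))) := by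
    intro Z
    refine lmax_le_of' _ ⟨⟨0, hN⟩⟩ fun v hv => ?_
    have h2 := le_lmax (goe Z) hv
    have h3 := le_lmax (goe (flipT N Z)) hv
    have h4 : dotProduct v ((wig N 0 Z).mulVec v) =
        2⁻¹ * (dotProduct v ((goe Z).mulVec v) + dotProduct v ((goe (flipT N Z)).mulVec v)) := by
      rw [quad_eq, quad_eq, quad_eq, ← Finset.sum_add_distrib, Finset.mul_sum]
      refine Finset.sum_congr rfl fun i _ => ?_
      rw [← Finset.sum_add_distrib, Finset.mul_sum]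
      refine Finset.sum_congr rfl fun j _ => ?_
      have h5 : wig N 0 Z i j = 2⁻¹ * (goe Z i j + goe (flipT N Z) i j) := by
        simp only [wig, goe, Matrix.of_apply]
        show _ = 2⁻¹ * (cf i j * Z {i, j} +
          cf i j * ((if ({i, j} : Finset (Fin N)).card = 1 then -1 else 1) * Z {i, j}))
        by_cases h : i = j
        · subst h
          simp
        · rw [if_neg h, Finset.card_pair h]
          unfold cf
          rw [if_neg h]
          norm_num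
          ring
      rw [h5]
      ring
    rw [h4]
    linarith
  have hint2 : Integrable (fun Z => lmax (goe (flipT N Z))) (G (Finset (Fin N))) :=
    (flipT_mp N).integrable_comp_of_integrable lmax_goe_int
  have h2 := integral_mono (lmax_wig_int 0) ((lmax_goe_int.add hint2).const_mul 2⁻¹) h1
  simp only [Pi.add_apply] at h2
  rw [integral_const_mul, integral_add lmax_goe_int hint2,
    mp_integral (flipT_mp N) lmax_goe_int.aestronglyMeasurable] at h2
  linarith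

/-- the upper bound -/
theorem emax_upper (c : ℝ) :
    Emax n 2 (m + 1) c ≤ ((m : ℝ) + 1) * ∫ Z, lmax (wig n c Z) ∂(G (Finset (Fin n))) := by
  rw [← integral_const_mul]
  exact integral_mono (lmax_kik_integrable 2 c) ((lmax_wig_int c).const_mul _)
    fun Z => lmax_kik_le c Z

end

end Pool.Agent.V7H95.Kik2
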