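import Pool.Agent.V7H95.Kik2.Eig
import Pool.Agent.V7H95.Kik2.PartA

set_option autoImplicit false

open MeasureTheory ProbabilityTheory Finset

namespace Pool.Agent.V7H95.Kik2

open Pool.Agent.V7H95.Kik

section
variable {N : ℕ}

/-- pairs `i ≤ j` -/
abbrev KP (N : ℕ) : Type := {p : Fin N × Fin N // p.1 ≤ p.2}

/-- the set of a pair -/
def ep (p : KP N) : Finset (Fin N) := {p.1.1, p.1.2}

theorem pair_inj {i j i' j' : Fin N} (h : i ≤ j) (h' : i' ≤ j')
    (he : ({i, j} : Finset (Fin N)) = {i', j'}) : i = i' ∧ j = j' := by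
  have h1 : i ∈ ({i', j'} : Finset (Fin N)) := by rw [← he]; simp
  have h2 : j ∈ ({i', j'} : Finset (Fin N)) := by rw [← he]; simp
  have h3 : i' ∈ ({i, j} : Finset (Fin N)) := by rw [he]; simp
  have h4 : j' ∈ ({i, j} : Finset (Fin N)) := by rw [he]; simp
  rw [Finset.mem_insert, Finset.mem_singleton] at h1 h2 h3 h4
  simp only [Fin.ext_iff, Fin.le_def] at *
  omega

theorem ep_inj : Function.Injective (ep (N := N)) := by
  rintro ⟨⟨i, j⟩, h⟩ ⟨⟨i', j'⟩, h'⟩ he
  obtain ⟨h1, h2⟩ := pair_inj h h' he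
  simp only at h1 h2
  subst h1 h2
  rfl

/-- the factor `√2` on the diagonal -/
noncomputable def cf (i j : Fin N) : ℝ := if i = j then Real.sqrt 2 else 1

theorem cf_pos (i j : Fin N) : 0 < cf i j := by
  unfold cf
  split_ifs
  · positivity
  · norm_num

theorem cf_comm (i j : Fin N) : cf i j = cf j i := by
  unfold cf
  simp only [eq_comm]

/-- the Gaussian orthogonal ensemble -/
noncomputable def goe (Z : Finset (Fin N) → ℝ) : Matrix (Fin N) (Fin N) ℝ :=
  Matrix.of fun i j => cf i j * Z {i, j}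

theorem goe_symm (Z : Finset (Fin N) → ℝ) : (goe Z).IsSymm := by
  apply Matrix.IsSymm.ext
  intro i j
  simp only [goe, Matrix.of_apply]
  rw [cf_comm, Finset.pair_comm]

theorem conj_symm (O A : Matrix (Fin N) (Fin N) ℝ) (hA : A.IsSymm) :
    (O * A * O.transpose).IsSymm := by
  unfold Matrix.IsSymm
  rw [Matrix.transpose_mul, Matrix.transpose_mul, Matrix.transpose_transpose, hA.eq,
    Matrix.mul_assoc]

open Classical in
/-- the rotation of the noise -/
noncomputable def rotF (O : Matrix (Fin N) (Fin N) ℝ) (Z : Finset (Fin N) → ℝ)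
    (S : Finset (Fin N)) : ℝ :=
  if ∃ p : KP N, ep p = S then
    ∑ p : KP N, (if ep p = S then (O * goe Z * O.transpose) p.1.1 p.1.2 / cf p.1.1 p.1.2 else 0)
    else Z S

theorem rotF_add (O : Matrix (Fin N) (Fin N) ℝ) (Z Y : Finset (Fin N) → ℝ) (S : Finset (Fin N)) :
    rotF O (Z + Y) S = rotF O Z S + rotF O Y S := by
  have h1 : goe (Z + Y) = goe Z + goe Y := by
    ext i j
    simp only [goe, Matrix.of_apply, Matrix.add_apply, Pi.add_apply]
    ring
  unfold rotF
  by_cases h : ∃ p : KP N, ep p = S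
  · simp only [if_pos h]
    rw [← Finset.sum_add_distrib]
    refine Finset.sum_congr rfl fun p _ => ?_
    split_ifs
    · rw [h1, Matrix.mul_add, Matrix.add_mul, Matrix.add_apply]
      ring
    · ring
  · simp only [if_neg h]
    rfl

theorem rotF_smul (O : Matrix (Fin N) (Fin N) ℝ) (a : ℝ) (Z : Finset (Fin N) → ℝ)
    (S : Finset (Fin N)) : rotF O (a • Z) S = a * rotF O Z S := by
  have h1 : goe (a • Z) = a • goe Z := by
    ext i j
    simp only [goe, Matrix.of_apply, Matrix.smul_apply, Pi.smul_apply, smul_eq_mul]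
    ring
  unfold rotF
  by_cases h : ∃ p : KP N, ep p = S
  · simp only [if_pos h]
    rw [Finset.mul_sum]
    refine Finset.sum_congr rfl fun p _ => ?_
    split_ifs
    · rw [h1, Matrix.mul_smul, Matrix.smul_mul, Matrix.smul_apply]
      simp only [smul_eq_mul]
      ring
    · simp
  · simp only [if_neg h]
    rfl

/-- the rotation of the noise, as a linear map -/
noncomputable def rotT (O : Matrix (Fin N) (Fin N) ℝ) :
    (Finset (Fin N) → ℝ) →ₗ[ℝ] (Finset (Fin N) → ℝ) where
  toFun Z := rotF O Z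
  map_add' Z Y := funext (rotF_add O Z Y)
  map_smul' a Z := funext (rotF_smul O a Z)

theorem rotT_ep (O : Matrix (Fin N) (Fin N) ℝ) (Z : Finset (Fin N) → ℝ) (p : KP N) :
    rotT O Z (ep p) = (O * goe Z * O.transpose) p.1.1 p.1.2 / cf p.1.1 p.1.2 := by
  classical
  have h : ∃ q : KP N, ep q = ep p := ⟨p, rfl⟩
  show rotF O Z (ep p) = _
  unfold rotF
  rw [if_pos h, Finset.sum_eq_single p]
  · rw [if_pos rfl]
  · intro q _ hq
    rw [if_neg (fun h => hq (ep_inj h))]
  · intro h; exact absurd (Finset.mem_univ _) h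

theorem rotT_not (O : Matrix (Fin N) (Fin N) ℝ) (Z : Finset (Fin N) → ℝ) (S : Finset (Fin N))
    (h : ¬ ∃ q : KP N, ep q = S) : rotT O Z S = Z S := by
  classical
  show rotF O Z S = _
  unfold rotF
  rw [if_neg h]

theorem goe_rotT (O : Matrix (Fin N) (Fin N) ℝ) (Z : Finset (Fin N) → ℝ) :
    goe (rotT O Z) = O * goe Z * O.transpose := by
  have h1 : ∀ i j : Fin N, i ≤ j → goe (rotT O Z) i j = (O * goe Z * O.transpose) i j := by
    intro i j hij
    have h2 := rotT_ep O Z ⟨(i, j), hij⟩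
    simp only [goe, Matrix.of_apply]
    unfold ep at h2
    simp only at h2
    rw [h2, mul_div_cancel₀]
    · rfl
    · exact (cf_pos i j).ne'
  ext i j
  rcases le_total i j with h | h
  · exact h1 i j h
  · rw [← (goe_symm (rotT O Z)).apply, ← (conj_symm O (goe Z) (goe_symm Z)).apply]
    exact h1 j i h

theorem fro_goe (Z : Finset (Fin N) → ℝ) : fro (goe Z) = 2 * ∑ p : KP N, Z (ep p) ^ 2 := by
  unfold fro
  rw [← Finset.sum_product']
  rw [← Finset.sum_filter_add_sum_filter_not _ (fun q : Fin N × Fin N => q.1 ≤ q.2)]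
  have h1 : ∑ q ∈ (univ ×ˢ univ : Finset (Fin N × Fin N)) with ¬ q.1 ≤ q.2,
      goe Z q.1 q.2 ^ 2 = ∑ q ∈ (univ ×ˢ univ : Finset (Fin N × Fin N)) with q.1 ≤ q.2,
        (if q.1 < q.2 then goe Z q.1 q.2 ^ 2 else 0) := by
    rw [← Finset.sum_filter, Finset.filter_filter]
    refine Finset.sum_nbij' Prod.swap Prod.swap ?_ ?_ ?_ ?_ ?_
    · rintro ⟨i, j⟩ h
      simp only [Finset.mem_filter, Finset.mem_product, Finset.mem_univ, true_and, not_le,
        Prod.swap_prod_mk] at h ⊢
      exact ⟨h.le, h⟩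
    · rintro ⟨i, j⟩ h
      simp only [Finset.mem_filter, Finset.mem_product, Finset.mem_univ, true_and, not_le,
        Prod.swap_prod_mk] at h ⊢
      exact h.2
    · rintro ⟨i, j⟩ _; rfl
    · rintro ⟨i, j⟩ _; rfl
    · rintro ⟨i, j⟩ _
      simp only [Prod.swap_prod_mk]
      rw [(goe_symm Z).apply]
  rw [h1, ← Finset.sum_add_distrib]
  rw [Finset.sum_subtype (p := fun q : Fin N × Fin N => q.1 ≤ q.2)
    ((univ ×ˢ univ : Finset (Fin N × Fin N)).filter (fun q => q.1 ≤ q.2)) (by simp)]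
  rw [Finset.mul_sum]
  refine Finset.sum_congr rfl fun p _ => ?_
  simp only [goe, Matrix.of_apply, ep]
  rcases eq_or_lt_of_le p.2 with h | h
  · rw [if_neg (by rw [h]; exact lt_irrefl _)]
    unfold cf
    rw [if_pos h, mul_pow, Real.sq_sqrt (by norm_num)]
    ring
  · rw [if_pos h]
    unfold cf
    rw [if_neg h.ne]
    ring

theorem rotT_isom (O : Matrix (Fin N) (Fin N) ℝ) (hO : O * O.transpose = 1)
    (Z : Finset (Fin N) → ℝ) : ∑ S, rotT O Z S ^ 2 = ∑ S, Z S ^ 2 := by
  classical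
  rw [← Finset.sum_add_sum_compl ((univ : Finset (KP N)).image ep) (fun S => rotT O Z S ^ 2),
    ← Finset.sum_add_sum_compl ((univ : Finset (KP N)).image ep) (fun S => Z S ^ 2)]
  congr 1
  · rw [Finset.sum_image (fun p _ q _ h => ep_inj h), Finset.sum_image (fun p _ q _ h => ep_inj h)]
    have h1 := fro_goe (rotT O Z)
    have h2 := fro_goe Z
    rw [goe_rotT, fro_conj O (goe Z) hO, h2] at h1
    linarith
  · refine Finset.sum_congr rfl fun S hS => ?_
    rw [rotT_not]
    rintro ⟨q, hq⟩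
    rw [Finset.mem_compl, Finset.mem_image] at hS
    exact hS ⟨q, Finset.mem_univ _, hq⟩

theorem rotT_mp (O : Matrix (Fin N) (Fin N) ℝ) (hO : O * O.transpose = 1) :
    MeasurePreserving (rotT O) (G (Finset (Fin N))) (G (Finset (Fin N))) :=
  mp_isom _ (rotT_isom O hO)

end

end Pool.Agent.V7H95.Kik2
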