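import Pool.Agent.V7H95.Kik2.Wig

set_option autoImplicit false

open Finset

namespace Pool.Agent.V7H95.Kik2

open Pool.Agent.V7H95.Kik

section
variable {n : ℕ}

/-- elementary symmetric polynomials -/
def es (p : Fin n → ℝ) (m : ℕ) : ℝ :=
  ∑ K ∈ powersetCard m (univ : Finset (Fin n)), ∏ i ∈ K, p i

/-- the same with the weight of the set -/
def es' (p : Fin n → ℝ) (m : ℕ) : ℝ :=
  ∑ K ∈ powersetCard m (univ : Finset (Fin n)), (∏ i ∈ K, p i) * ∑ k ∈ K, p k

theorem es_succ (p : Fin n → ℝ) (m : ℕ) :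
    (m + 1) * es p (m + 1) = (∑ i, p i) * es p m - es' p m := by
  have h1 := sum_one (n := n) (m := m) (fun I _ => ∏ i ∈ I, p i)
  have h2 : ∑ I ∈ powersetCard (m + 1) (univ : Finset (Fin n)), ∑ _i ∈ I, ∏ i ∈ I, p i =
      (m + 1) * es p (m + 1) := by
    unfold es
    rw [Finset.mul_sum]
    refine Finset.sum_congr rfl fun I hI => ?_
    rw [Finset.sum_const, (Finset.mem_powersetCard.1 hI).2, nsmul_eq_mul]
    push_cast
    ring
  rw [h2] at h1
  rw [← h1]
  unfold es es'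
  rw [Finset.mul_sum, ← Finset.sum_sub_distrib]
  refine Finset.sum_congr rfl fun K _ => ?_
  have h3 : ∑ i ∈ Kᶜ, ∏ j ∈ insert i K, p j = (∏ j ∈ K, p j) * ∑ i ∈ Kᶜ, p i := by
    rw [Finset.mul_sum]
    refine Finset.sum_congr rfl fun i hi => ?_
    rw [Finset.prod_insert (Finset.mem_compl.1 hi)]
    ring
  rw [h3]
  have h4 := Finset.sum_add_sum_compl K p
  have h5 : ∑ i ∈ Kᶜ, p i = ∑ i, p i - ∑ i ∈ K, p i := by linarith
  rw [h5]
  ring

theorem es_nonneg (p : Fin n → ℝ) (hp : ∀ i, 0 ≤ p i) (m : ℕ) : 0 ≤ es p m :=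
  Finset.sum_nonneg fun _ _ => Finset.prod_nonneg fun i _ => hp i

theorem es_le (p : Fin n → ℝ) (hp : ∀ i, 0 ≤ p i) (h1 : ∑ i, p i ≤ 1) (m : ℕ) :
    (m.factorial : ℝ) * es p m ≤ 1 := by
  have h := esymm_le p hp univ m
  unfold es
  refine h.trans ?_
  exact pow_le_one₀ (Finset.sum_nonneg fun i _ => hp i) h1

theorem es'_le (p : Fin n → ℝ) (hp : ∀ i, 0 ≤ p i) (h1 : ∑ i, p i ≤ 1) (m : ℕ) :
    (m.factorial : ℝ) * es' p m ≤ m * ∑ i, p i ^ 2 := by
  cases m with
  | zero =>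
    unfold es'
    simp
  | succ m =>
    have h2 := sum_one (n := n) (m := m) (fun I i => (∏ j ∈ I, p j) * p i)
    have h3 : es' p (m + 1) ≤ (∑ i, p i ^ 2) * es p m := by
      unfold es'
      simp only [Finset.mul_sum]
      rw [← h2]
      unfold es
      rw [Finset.mul_sum]
      refine Finset.sum_le_sum fun K _ => ?_
      have h4 : ∑ i ∈ Kᶜ, (∏ j ∈ insert i K, p j) * p i =
          (∑ i ∈ Kᶜ, p i ^ 2) * ∏ j ∈ K, p j := by
        rw [Finset.sum_mul]
        refine Finset.sum_congr rfl fun i hi => ?_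
        rw [Finset.prod_insert (Finset.mem_compl.1 hi)]
        ring
      rw [h4]
      apply mul_le_mul_of_nonneg_right _ (Finset.prod_nonneg fun i _ => hp i)
      exact Finset.sum_le_sum_of_subset_of_nonneg (Finset.subset_univ _) fun i _ _ => sq_nonneg _
    have hQ : 0 ≤ ∑ i, p i ^ 2 := Finset.sum_nonneg fun i _ => sq_nonneg _
    have h5 := es_le p hp h1 m
    calc ((m + 1).factorial : ℝ) * es' p (m + 1)
        ≤ ((m + 1).factorial : ℝ) * ((∑ i, p i ^ 2) * es p m) := by gcongr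
      _ = ((m : ℝ) + 1) * (∑ i, p i ^ 2) * ((m.factorial : ℝ) * es p m) := by
          rw [Nat.factorial_succ]; push_cast; ring
      _ ≤ ((m : ℝ) + 1) * (∑ i, p i ^ 2) * 1 := by gcongr
      _ = _ := by push_cast; ring

theorem es_ge (p : Fin n → ℝ) (hp : ∀ i, 0 ≤ p i) {q : ℝ} (hq : 0 ≤ q) (h1 : ∑ i, p i = 1 - q)
    (m : ℕ) : 1 - m * q - (m : ℝ) ^ 2 * ∑ i, p i ^ 2 ≤ (m.factorial : ℝ) * es p m := by
  have hQ : 0 ≤ ∑ i, p i ^ 2 := Finset.sum_nonneg fun i _ => sq_nonneg _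
  induction m with
  | zero => simp [es]
  | succ m ih =>
    have h2 := es_succ p m
    have h3 := es'_le p hp (by linarith) m
    have h4 := es_le p hp (by linarith) m
    have h5 : ((m + 1).factorial : ℝ) * es p (m + 1) =
        (1 - q) * ((m.factorial : ℝ) * es p m) - (m.factorial : ℝ) * es' p m := by
      rw [Nat.factorial_succ]
      push_cast
      calc ((m : ℝ) + 1) * m.factorial * es p (m + 1) =
          m.factorial * (((m : ℝ) + 1) * es p (m + 1)) := by ring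
        _ = _ := by rw [h2, h1]; ring
    rw [h5]
    have h6 : q * ((m.factorial : ℝ) * es p m) ≤ q * 1 := mul_le_mul_of_nonneg_left h4 hq
    push_cast
    nlinarith

end

end Pool.Agent.V7H95.Kik2
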