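import Pool.Agent.V7H95.Kik2.Sym
import Pool.Agent.V7H95.Kik2.Rot

set_option autoImplicit false

open MeasureTheory ProbabilityTheory Finset

namespace Pool.Agent.V7H95.Kik2

open Pool.Agent.V7H95.Kik

section
variable {n m : ℕ}

/-- the product state -/
noncomputable def Phi (w : Fin (n + 1) → ℝ) (I : St n (m + 1)) : ℝ :=
  Real.sqrt ((m + 1).factorial) * ∏ i ∈ I.1, w (Fin.castSucc i)

/-- the vector without some sites -/
def cut (w : Fin (n + 1) → ℝ) (K : Finset (Fin n)) (i : Fin n) : ℝ :=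
  if i ∈ K then 0 else w (Fin.castSucc i)

theorem ext_Phi (w : Fin (n + 1) → ℝ) (K : Finset (Fin n)) (hK : K.card = m) :
    ext (Phi (m := m) w) K =
      (Real.sqrt ((m + 1).factorial) * ∏ i ∈ K, w (Fin.castSucc i)) • cut w K := by
  funext i
  rw [Pi.smul_apply, smul_eq_mul]
  unfold ext cut
  by_cases h : i ∈ K
  · rw [if_pos h, if_pos h, mul_zero]
  · rw [if_neg h, if_neg h]
    unfold tot Phi
    rw [dif_pos (by rw [Finset.card_insert_of_notMem h, hK])]
    simp only
    rw [Finset.prod_insert h]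
    ring

theorem Phi_norm (w : Fin (n + 1) → ℝ) (hw : ∑ i : Fin n, w (Fin.castSucc i) ^ 2 ≤ 1) :
    dotProduct (Phi (m := m) w) (Phi w) ≤ 1 := by
  have h1 := es_le (fun i : Fin n => w (Fin.castSucc i) ^ 2) (fun i => sq_nonneg _) hw (m + 1)
  refine le_trans (le_of_eq ?_) h1
  unfold dotProduct es
  rw [Finset.mul_sum, ← sum_St]
  refine Finset.sum_congr rfl fun I _ => ?_
  unfold Phi
  have h2 : Real.sqrt ((m + 1).factorial) * Real.sqrt ((m + 1).factorial) =
      ((m + 1).factorial : ℝ) := Real.mul_self_sqrt (Nat.cast_nonneg _)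
  calc Real.sqrt ((m + 1).factorial) * (∏ i ∈ I.1, w (Fin.castSucc i)) *
        (Real.sqrt ((m + 1).factorial) * ∏ i ∈ I.1, w (Fin.castSucc i))
      = (Real.sqrt ((m + 1).factorial) * Real.sqrt ((m + 1).factorial)) *
          (∏ i ∈ I.1, w (Fin.castSucc i)) ^ 2 := by ring
    _ = _ := by rw [h2, Finset.prod_pow]

theorem cut_quad (Z : Finset (Fin (n + 1)) → ℝ) {w : Fin (n + 1) → ℝ} (hw : dotProduct w w = 1)
    {lam : ℝ} (he : (goe Z).mulVec w = lam • w) (K : Finset (Fin n)) {D : ℝ}
    (hD : ∀ i, |goe Z i i| ≤ D) :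
    lam - 3 * Real.sqrt (fro (goe Z)) * (w (Fin.last n) ^ 2 + ∑ k ∈ K, w (Fin.castSucc k) ^ 2) - D ≤
      dotProduct (cut w K) ((wig n 0 (restr Z)).mulVec (cut w K)) := by
  set x := cut w K with hx
  set y : Fin (n + 1) → ℝ := Fin.snoc (α := fun _ => ℝ) x 0 with hy
  set z : Fin (n + 1) → ℝ := w - y with hz
  set A := goe Z with hA
  have hAs : A.IsSymm := goe_symm Z
  have hD0 : 0 ≤ D := (abs_nonneg _).trans (hD (Fin.last n))
  -- the two quadratic forms
  have h1 : dotProduct y (A.mulVec y) = dotProduct x ((wig n 0 (restr Z)).mulVec x) +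
      ∑ i : Fin n, x i ^ 2 * A (Fin.castSucc i) (Fin.castSucc i) := by
    rw [quad_eq, quad_eq]
    simp only [Fin.sum_univ_castSucc, hy, Fin.snoc_castSucc, Fin.snoc_last]
    simp only [mul_zero, zero_mul, add_zero, Finset.sum_const_zero]
    rw [← Finset.sum_add_distrib]
    refine Finset.sum_congr rfl fun i _ => ?_
    have h2 : ∀ j : Fin n, x i * A i.castSucc j.castSucc * x j =
        x i * wig n 0 (restr Z) i j * x j +
          (if i = j then x i ^ 2 * A (Fin.castSucc i) (Fin.castSucc i) else 0) := by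
      intro j
      by_cases hij : i = j
      · subst hij
        rw [wig_diag, if_pos rfl]
        ring
      · rw [if_neg hij]
        have h3 : A i.castSucc j.castSucc = wig n 0 (restr Z) i j := by
          rw [← wig_restr]
          simp only [hA, goe, wig, Matrix.of_apply, Matrix.submatrix_apply, cf, Fin.castSucc_inj]
          rw [if_neg hij, if_neg hij]
          ring
        rw [h3]
        ring
    simp only [h2]
    rw [Finset.sum_add_distrib]
    simp
  -- the complement
  have hyw : ∀ i, y i = 0 ∨ y i = w i := by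
    intro i
    refine Fin.lastCases ?_ (fun j => ?_) i
    · left; simp [hy]
    · simp only [hy, Fin.snoc_castSucc, hx, cut]
      by_cases hj : j ∈ K
      · left; simp [hj]
      · right; simp [hj]
  have hzw : dotProduct z w = dotProduct z z := by
    unfold dotProduct
    refine Finset.sum_congr rfl fun i _ => ?_
    rw [hz, Pi.sub_apply]
    rcases hyw i with h | h <;> rw [h] <;> ring
  have hzz : dotProduct z z = w (Fin.last n) ^ 2 + ∑ k ∈ K, w (Fin.castSucc k) ^ 2 := by
    unfold dotProduct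
    rw [Fin.sum_univ_castSucc, hz]
    simp only [Pi.sub_apply, hy, Fin.snoc_castSucc, Fin.snoc_last, hx, cut]
    rw [add_comm]
    congr 1
    · ring
    · rw [← Finset.sum_subset (Finset.subset_univ K)]
      · refine Finset.sum_congr rfl fun k hk => ?_
        rw [if_pos hk]; ring
      · intro k _ hk
        rw [if_neg hk]; ring
  have hzz0 : 0 ≤ dotProduct z z := by
    unfold dotProduct
    exact Finset.sum_nonneg fun i _ => mul_self_nonneg _
  have h2 : dotProduct y (A.mulVec y) =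
      lam - 2 * lam * dotProduct z z + dotProduct z (A.mulVec z) := by
    have h3 : y = w + (-1 : ℝ) • z := by
      rw [hz]
      funext i
      simp
    rw [h3, quad_add A hAs, he, dotProduct_smul, dotProduct_smul, hw, hzw]
    simp only [smul_eq_mul]
    ring
  have h3 := quad_fro A w
  rw [he, dotProduct_smul, hw, smul_eq_mul, mul_one, mul_one] at h3
  have h4 := quad_fro A z
  have h5 : ∑ i : Fin n, x i ^ 2 * A (Fin.castSucc i) (Fin.castSucc i) ≤ D := by
    calc ∑ i : Fin n, x i ^ 2 * A (Fin.castSucc i) (Fin.castSucc i)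
        ≤ ∑ i : Fin n, x i ^ 2 * D := by
          refine Finset.sum_le_sum fun i _ => ?_
          exact mul_le_mul_of_nonneg_left ((le_abs_self _).trans (hD _)) (sq_nonneg _)
      _ = (∑ i : Fin n, x i ^ 2) * D := by rw [Finset.sum_mul]
      _ ≤ 1 * D := by
          apply mul_le_mul_of_nonneg_right _ hD0
          rw [← hw]
          unfold dotProduct
          rw [Fin.sum_univ_castSucc]
          have h6 : ∑ i : Fin n, x i ^ 2 ≤ ∑ i : Fin n, w i.castSucc * w i.castSucc := by
            refine Finset.sum_le_sum fun i _ => ?_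
            rw [hx, cut]
            split_ifs
            · nlinarith [mul_self_nonneg (w i.castSucc)]
            · rw [sq]
          have := mul_self_nonneg (w (Fin.last n))
          linarith
      _ = D := one_mul D
  rw [← hzz]
  have h6 := abs_le.1 h3
  have h7 := abs_le.1 h4
  have h8 : lam * dotProduct z z ≤ Real.sqrt (fro A) * dotProduct z z :=
    mul_le_mul_of_nonneg_right h6.2 hzz0
  linarith

/-- the test vector -/
theorem test (Z : Finset (Fin (n + 1)) → ℝ) {w : Fin (n + 1) → ℝ} (hw : dotProduct w w = 1)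
    {lam : ℝ} (he : (goe Z).mulVec w = lam • w) {D : ℝ} (hD : ∀ i, |goe Z i i| ≤ D) :
    ((m : ℝ) + 1) * (lam - D - ((m : ℝ) + 3) ^ 2 * Real.sqrt (fro (goe Z)) *
      (w (Fin.last n) ^ 2 + ∑ i, w i ^ 4)) ≤ lmax (kik n 2 (m + 1) 0 (restr Z)) := by
  have hD0 : 0 ≤ D := (abs_nonneg _).trans (hD (Fin.last n))
  set p : Fin n → ℝ := fun i => w (Fin.castSucc i) ^ 2 with hp
  have hp0 : ∀ i, 0 ≤ p i := fun i => sq_nonneg _
  set q := w (Fin.last n) ^ 2 with hq
  have hq0 : 0 ≤ q := sq_nonneg _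
  have hpq : ∑ i, p i = 1 - q := by
    have h1 : ∑ i : Fin n, w i.castSucc * w i.castSucc + w (Fin.last n) * w (Fin.last n) = 1 := by
      rw [← hw]
      unfold dotProduct
      rw [Fin.sum_univ_castSucc]
    have h2 : ∑ i, p i = ∑ i : Fin n, w i.castSucc * w i.castSucc :=
      Finset.sum_congr rfl fun i _ => by rw [hp]; ring
    rw [h2, hq]
    linarith
  have hp1 : ∑ i, p i ≤ 1 := by linarith
  set L := Real.sqrt (fro (goe Z)) with hL
  have hL0 : 0 ≤ L := Real.sqrt_nonneg _
  have h1 : dotProduct (Phi (m := m) w) ((kik n 2 (m + 1) 0 (restr Z)).mulVec (Phi w)) ≤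
      lmax (kik n 2 (m + 1) 0 (restr Z)) :=
    quad_le_lmax _ (lmax_nonneg _ (kik_diag (by norm_num) _ _)) (Phi_norm w hp1)
  refine le_trans ?_ h1
  rw [quad_kik]
  have hfac : Real.sqrt ((m + 1).factorial) * Real.sqrt ((m + 1).factorial) =
      ((m + 1).factorial : ℝ) := Real.mul_self_sqrt (Nat.cast_nonneg _)
  have h2 : ∀ K ∈ powersetCard m (univ : Finset (Fin n)),
      ((m + 1).factorial : ℝ) * (∏ i ∈ K, p i) * (lam - 3 * L * (q + ∑ k ∈ K, p k) - D) ≤
        dotProduct (ext (Phi (m := m) w) K)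
          ((wig n 0 (restr Z)).mulVec (ext (Phi (m := m) w) K)) := by
    intro K hK
    rw [ext_Phi w K (Finset.mem_powersetCard.1 hK).2, Matrix.mulVec_smul, smul_dotProduct,
      dotProduct_smul, smul_eq_mul, smul_eq_mul, ← mul_assoc]
    have h4 : Real.sqrt ((m + 1).factorial) * (∏ i ∈ K, w (Fin.castSucc i)) *
        (Real.sqrt ((m + 1).factorial) * ∏ i ∈ K, w (Fin.castSucc i)) =
        ((m + 1).factorial : ℝ) * (∏ i ∈ K, p i) := by
      calc _ = (Real.sqrt ((m + 1).factorial) * Real.sqrt ((m + 1).factorial)) *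
            (∏ i ∈ K, w (Fin.castSucc i)) ^ 2 := by ring
        _ = _ := by
            rw [hfac, hp]
            simp only
            rw [Finset.prod_pow]
    rw [h4]
    apply mul_le_mul_of_nonneg_left (cut_quad Z hw he K hD)
    exact mul_nonneg (Nat.cast_nonneg _) (Finset.prod_nonneg fun i _ => hp0 i)
  refine le_trans ?_ (Finset.sum_le_sum h2)
  have h3 : ∑ K ∈ powersetCard m (univ : Finset (Fin n)),
      ((m + 1).factorial : ℝ) * (∏ i ∈ K, p i) * (lam - 3 * L * (q + ∑ k ∈ K, p k) - D) =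
      ((m : ℝ) + 1) * ((lam - D - 3 * L * q) * ((m.factorial : ℝ) * es p m) -
        3 * L * ((m.factorial : ℝ) * es' p m)) := by
    unfold es es'
    rw [Finset.mul_sum, Finset.mul_sum, Finset.mul_sum, Finset.mul_sum, ← Finset.sum_sub_distrib,
      Finset.mul_sum]
    refine Finset.sum_congr rfl fun K _ => ?_
    rw [Nat.factorial_succ]
    push_cast
    ring
  rw [h3]
  apply mul_le_mul_of_nonneg_left _ (by positivity)
  have e1 := es_le p hp0 hp1 m
  have e2 := es_ge p hp0 hq0 hpq m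
  have e3 := es'_le p hp0 hp1 m
  have e0 : 0 ≤ (m.factorial : ℝ) * es p m := mul_nonneg (Nat.cast_nonneg _) (es_nonneg p hp0 m)
  set a := (m.factorial : ℝ) * es p m with ha
  set b := (m.factorial : ℝ) * es' p m with hb
  set Q' := ∑ i, p i ^ 2 with hQ'
  set Q := ∑ i, w i ^ 4 with hQ
  have hQ0 : 0 ≤ Q' := Finset.sum_nonneg fun i _ => sq_nonneg _
  have hQQ : Q' ≤ Q := by
    rw [hQ, Fin.sum_univ_castSucc]
    have h4 : Q' = ∑ i : Fin n, w i.castSucc ^ 4 :=
      Finset.sum_congr rfl fun i _ => by rw [hp]; ring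
    rw [h4]
    have : 0 ≤ w (Fin.last n) ^ 4 := by positivity
    linarith
  have h4 := quad_fro (goe Z) w
  rw [he, dotProduct_smul, hw, smul_eq_mul, mul_one, mul_one, ← hL] at h4
  have h5 := (abs_le.1 h4).2
  have f1 : lam * (1 - a) ≤ L * (1 - a) := mul_le_mul_of_nonneg_right h5 (by linarith)
  have f2 : D * a ≤ D * 1 := mul_le_mul_of_nonneg_left e1 hD0
  have f3 : L * q * a ≤ L * q * 1 := mul_le_mul_of_nonneg_left e1 (by positivity)
  have f4 : L * b ≤ L * (m * Q') := mul_le_mul_of_nonneg_left e3 hL0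
  have f5 : L * (1 - a) ≤ L * (m * q + (m : ℝ) ^ 2 * Q') :=
    mul_le_mul_of_nonneg_left (by linarith) hL0
  have hm0 : (0 : ℝ) ≤ m := Nat.cast_nonneg m
  have f6 : L * ((m * q + (m : ℝ) ^ 2 * Q') + 3 * q + 3 * (m * Q')) ≤
      L * (((m : ℝ) + 3) ^ 2 * (q + Q)) := by
    apply mul_le_mul_of_nonneg_left _ hL0
    have g1 : ((m : ℝ) + 3) * q ≤ ((m : ℝ) + 3) ^ 2 * q := by
      apply mul_le_mul_of_nonneg_right _ hq0
      nlinarith
    have g2 : ((m : ℝ) ^ 2 + 3 * m) * Q' ≤ ((m : ℝ) + 3) ^ 2 * Q := by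
      apply mul_le_mul _ hQQ hQ0 (by positivity)
      nlinarith
    linarith
  nlinarith

end

end Pool.Agent.V7H95.Kik2
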