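import Pool.Agent.V7H95.Kik2.Meas

set_option autoImplicit false

open MeasureTheory ProbabilityTheory Finset

namespace Pool.Agent.V7H95.Kik2

open Pool.Agent.V7H95.Kik

section
variable {ι : Type} [Fintype ι]

theorem quad_le (M : Matrix ι ι ℝ) (v : ι → ℝ) :
    dotProduct v (M.mulVec v) ≤ lmax M * dotProduct v v := by
  by_cases hv : dotProduct v v = 0
  · have h1 : v = 0 := by
      rw [dotProduct_self_eq_zero] at hv
      exact hv
    subst h1
    simp
  · have h0 : 0 < dotProduct v v := by
      have h2 : 0 ≤ dotProduct v v := by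
        unfold dotProduct
        exact Finset.sum_nonneg fun i _ => mul_self_nonneg _
      exact lt_of_le_of_ne h2 (Ne.symm hv)
    have hs : 0 < Real.sqrt (dotProduct v v) := Real.sqrt_pos.2 h0
    have hss : Real.sqrt (dotProduct v v) * Real.sqrt (dotProduct v v) = dotProduct v v :=
      Real.mul_self_sqrt h0.le
    have h3 : dotProduct ((Real.sqrt (dotProduct v v))⁻¹ • v) ((Real.sqrt (dotProduct v v))⁻¹ • v)
        = 1 := by
      rw [smul_dotProduct, dotProduct_smul, smul_eq_mul, smul_eq_mul]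
      field_simp
      rw [sq, hss]
    have h4 := le_lmax M h3
    rw [Matrix.mulVec_smul, smul_dotProduct, dotProduct_smul, smul_eq_mul, smul_eq_mul,
      ← mul_assoc] at h4
    have h5 : (Real.sqrt (dotProduct v v))⁻¹ * (Real.sqrt (dotProduct v v))⁻¹ =
        (dotProduct v v)⁻¹ := by
      rw [← mul_inv, hss]
    rw [h5, inv_mul_le_iff₀ h0] at h4
    linarith

theorem lmax_le_of (M : Matrix ι ι ℝ) {B : ℝ} (hB : 0 ≤ B)
    (h : ∀ v : ι → ℝ, dotProduct v v = 1 → dotProduct v (M.mulVec v) ≤ B) : lmax M ≤ B := by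
  unfold lmax
  apply Real.sSup_le _ hB
  rintro t ⟨v, hv, rfl⟩
  exact h v hv

theorem lmax_le_of' (M : Matrix ι ι ℝ) {B : ℝ} (hne : Nonempty ι)
    (h : ∀ v : ι → ℝ, dotProduct v v = 1 → dotProduct v (M.mulVec v) ≤ B) : lmax M ≤ B := by
  classical
  unfold lmax
  refine csSup_le ?_ ?_
  · obtain ⟨i⟩ := hne
    exact ⟨_, Pi.single i 1, by simp, rfl⟩
  · rintro t ⟨v, hv, rfl⟩
    exact h v hv

/-- a vector of length at most one -/
theorem quad_le_lmax (M : Matrix ι ι ℝ) (hM : 0 ≤ lmax M) {v : ι → ℝ} (hv : dotProduct v v ≤ 1) :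
    dotProduct v (M.mulVec v) ≤ lmax M := by
  refine (quad_le M v).trans ?_
  have h0 : 0 ≤ dotProduct v v := by
    unfold dotProduct
    exact Finset.sum_nonneg fun i _ => mul_self_nonneg _
  nlinarith

theorem lmax_submatrix {κ : Type} [Fintype κ] (e : ι ≃ κ) (M : Matrix κ κ ℝ) :
    lmax (M.submatrix e e) = lmax M := by
  unfold lmax
  congr 1
  ext t
  simp only [Set.mem_ofPred_eq]
  constructor
  · rintro ⟨v, hv, rfl⟩
    refine ⟨v ∘ e.symm, ?_, ?_⟩
    · rw [← hv]
      unfold dotProduct
      simp only [Function.comp_apply]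
      exact e.symm.sum_comp (fun i => v i * v i)
    · rw [quad_eq, quad_eq]
      rw [← e.sum_comp (fun i => ∑ j, (v ∘ e.symm) i * M i j * (v ∘ e.symm) j)]
      refine Finset.sum_congr rfl fun i _ => ?_
      rw [← e.sum_comp (fun j => (v ∘ e.symm) (e i) * M (e i) j * (v ∘ e.symm) j)]
      refine Finset.sum_congr rfl fun j _ => ?_
      simp
  · rintro ⟨v, hv, rfl⟩
    refine ⟨v ∘ e, ?_, ?_⟩
    · rw [← hv]
      unfold dotProduct
      simp only [Function.comp_apply]
      exact e.sum_comp (fun i => v i * v i)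
    · rw [quad_eq, quad_eq]
      rw [← e.sum_comp (fun i => ∑ j, v i * M i j * v j)]
      refine Finset.sum_congr rfl fun i _ => ?_
      rw [← e.sum_comp (fun j => v (e i) * M (e i) j * v j)]
      refine Finset.sum_congr rfl fun j _ => ?_
      simp

/-- conjugation with signs -/
theorem lmax_sign (M : Matrix ι ι ℝ) (s : ι → ℝ) (hs : ∀ i, s i * s i = 1) :
    lmax (Matrix.of fun i j => s i * M i j * s j) = lmax M := by
  unfold lmax
  congr 1
  ext t
  simp only [Set.mem_ofPred_eq]
  have h1 : ∀ v : ι → ℝ, dotProduct (fun i => s i * v i) (fun i => s i * v i) = dotProduct v v := by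
    intro v
    unfold dotProduct
    refine Finset.sum_congr rfl fun i _ => ?_
    calc s i * v i * (s i * v i) = (s i * s i) * (v i * v i) := by ring
      _ = v i * v i := by rw [hs, one_mul]
  constructor
  · rintro ⟨v, hv, rfl⟩
    refine ⟨fun i => s i * v i, by rw [h1, hv], ?_⟩
    rw [quad_eq, quad_eq]
    refine Finset.sum_congr rfl fun i _ => Finset.sum_congr rfl fun j _ => ?_
    simp only [Matrix.of_apply]
    ring
  · rintro ⟨v, hv, rfl⟩
    refine ⟨fun i => s i * v i, by rw [h1, hv], ?_⟩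
    rw [quad_eq, quad_eq]
    refine Finset.sum_congr rfl fun i _ => Finset.sum_congr rfl fun j _ => ?_
    simp only [Matrix.of_apply]
    calc v i * M i j * v j = (s i * s i) * (s j * s j) * (v i * M i j * v j) := by
          rw [hs, hs]; ring
      _ = _ := by ring

/-- continuity -/
theorem lmax_cont {X : Type} [TopologicalSpace X] (M : X → Matrix ι ι ℝ)
    (h : ∀ i j, Continuous fun x => M x i j) : Continuous fun x => lmax (M x) := by
  rw [continuous_iff_continuousAt]
  intro x0
  rw [ContinuousAt, tendsto_iff_dist_tendsto_zero]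
  have h2 : Continuous (fun x => ∑ i, ∑ j, |M x i j - M x0 i j|) := by
    refine continuous_finsetSum _ fun I _ => continuous_finsetSum _ fun J _ => ?_
    exact ((h I J).sub continuous_const).abs
  have h3 := h2.tendsto x0
  simp only [sub_self, abs_zero, Finset.sum_const_zero] at h3
  refine squeeze_zero (fun _ => dist_nonneg) (fun x => ?_) h3
  rw [Real.dist_eq]
  exact lmax_abs_sub_le _ _

theorem lmax_abs_le (M : Matrix ι ι ℝ) : |lmax M| ≤ ∑ i, ∑ j, |M i j| := by
  have h1 := lmax_abs_sub_le M 0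
  have h2 : lmax (0 : Matrix ι ι ℝ) = 0 := by
    apply le_antisymm
    · exact lmax_le_of _ le_rfl fun v _ => by simp
    · apply Real.sSup_nonneg
      rintro t ⟨v, hv, rfl⟩
      simp
  rw [h2, sub_zero] at h1
  simpa using h1

theorem lmax_int {X : Type} [TopologicalSpace X] [MeasurableSpace X] [OpensMeasurableSpace X]
    (μ : Measure X) (M : X → Matrix ι ι ℝ)
    (h : ∀ i j, Continuous fun x => M x i j) (h2 : ∀ i j, Integrable (fun x => M x i j) μ) :
    Integrable (fun x => lmax (M x)) μ := by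
  have h3 : Integrable (fun x => ∑ i, ∑ j, |M x i j|) μ :=
    integrable_finsetSum _ fun i _ => integrable_finsetSum _ fun j _ => (h2 i j).abs
  refine h3.mono' ?_ (Filter.Eventually.of_forall fun x => ?_)
  · exact (lmax_cont M h).measurable.aestronglyMeasurable
  · rw [Real.norm_eq_abs]
    exact lmax_abs_le _

end

/-- the matrix with zero diagonal and entries `c + Z {i, j}` -/
def wig (n : ℕ) (c : ℝ) (Z : Finset (Fin n) → ℝ) : Matrix (Fin n) (Fin n) ℝ :=
  Matrix.of fun i j => if i = j then 0 else c + Z {i, j}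

theorem wig_diag {n : ℕ} (c : ℝ) (Z : Finset (Fin n) → ℝ) (i : Fin n) : wig n c Z i i = 0 := by
  simp [wig]

theorem lmax_wig_nonneg {n : ℕ} (c : ℝ) (Z : Finset (Fin n) → ℝ) : 0 ≤ lmax (wig n c Z) :=
  lmax_nonneg _ (wig_diag c Z)

/-- a function of sets, zero on the sets of the wrong size -/
def tot {n l : ℕ} (v : St n l → ℝ) (S : Finset (Fin n)) : ℝ :=
  if h : S.card = l then v ⟨S, h⟩ else 0

theorem tot_eq {n l : ℕ} (v : St n l → ℝ) (K : St n l) : tot v K.1 = v K := by
  unfold tot
  rw [dif_pos K.2]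

theorem sum_St {n l : ℕ} (g : Finset (Fin n) → ℝ) :
    ∑ K : St n l, g K.1 = ∑ K ∈ powersetCard l univ, g K :=
  (Finset.sum_subtype (powersetCard l univ) (by simp) g).symm

/-- one particle -/
theorem sum_one {n m : ℕ} (F : Finset (Fin n) → Fin n → ℝ) :
    ∑ K ∈ powersetCard m (univ : Finset (Fin n)), ∑ i ∈ Kᶜ, F (insert i K) i =
      ∑ I ∈ powersetCard (m + 1) (univ : Finset (Fin n)), ∑ i ∈ I, F I i := by
  rw [Finset.sum_sigma', Finset.sum_sigma']
  refine Finset.sum_nbij' (fun x => ⟨insert x.2 x.1, x.2⟩) (fun x => ⟨x.1.erase x.2, x.2⟩)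
    ?_ ?_ ?_ ?_ ?_
  · rintro ⟨K, i⟩ h
    simp only [Finset.mem_sigma, Finset.mem_powersetCard, Finset.mem_compl] at h ⊢
    exact ⟨⟨Finset.subset_univ _, by rw [Finset.card_insert_of_notMem h.2, h.1.2]⟩,
      Finset.mem_insert_self _ _⟩
  · rintro ⟨I, i⟩ h
    simp only [Finset.mem_sigma, Finset.mem_powersetCard, Finset.mem_compl] at h ⊢
    exact ⟨⟨Finset.subset_univ _, by rw [Finset.card_erase_of_mem h.2, h.1.2]; rfl⟩,
      Finset.notMem_erase _ _⟩
  · rintro ⟨K, i⟩ h
    simp only [Finset.mem_sigma, Finset.mem_powersetCard, Finset.mem_compl] at h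
    simp only [Finset.erase_insert h.2]
  · rintro ⟨I, i⟩ h
    simp only [Finset.mem_sigma, Finset.mem_powersetCard] at h
    simp only [Finset.insert_erase h.2]
  · rintro ⟨K, i⟩ h
    rfl

/-- two sets at distance two -/
theorem sum_two {n m : ℕ} (F : Finset (Fin n) → Finset (Fin n) → ℝ) :
    ∑ K ∈ powersetCard m (univ : Finset (Fin n)), ∑ i ∈ Kᶜ, ∑ j ∈ Kᶜ.erase i,
      F (insert i K) (insert j K) =
      ∑ I ∈ powersetCard (m + 1) (univ : Finset (Fin n)),
        ∑ J ∈ powersetCard (m + 1) (univ : Finset (Fin n)),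
          if (symmDiff I J).card = 2 then F I J else 0 := by
  simp only [← Finset.sum_filter]
  rw [Finset.sum_sigma', Finset.sum_sigma']
  rw [Finset.sum_sigma']
  have hsd : ∀ (K : Finset (Fin n)) (i j : Fin n), i ∉ K → j ∉ K → j ≠ i →
      symmDiff (insert i K) (insert j K) = {i, j} := by
    intro K i j hi hj hij
    ext x
    simp only [Finset.mem_symmDiff, Finset.mem_insert, Finset.mem_singleton]
    constructor
    · rintro (⟨h1, h2⟩ | ⟨h1, h2⟩) <;> tauto
    · rintro (rfl | rfl)
      · left; exact ⟨Or.inl rfl, by push Not; exact ⟨hij.symm, hi⟩⟩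
      · right; exact ⟨Or.inl rfl, by push Not; exact ⟨hij, hj⟩⟩
  refine Finset.sum_bij (fun x _ => ⟨insert x.1.2 x.1.1, insert x.2 x.1.1⟩) ?_ ?_ ?_ ?_
  · rintro ⟨⟨K, i⟩, j⟩ h
    simp only [Finset.mem_sigma, Finset.mem_powersetCard, Finset.mem_compl, Finset.mem_erase,
      Finset.mem_filter] at h ⊢
    obtain ⟨⟨⟨_, hK⟩, hi⟩, hji, hj⟩ := h
    refine ⟨⟨Finset.subset_univ _, by rw [Finset.card_insert_of_notMem hi, hK]⟩,
      ⟨Finset.subset_univ _, by rw [Finset.card_insert_of_notMem hj, hK]⟩, ?_⟩
    rw [hsd K i j hi hj hji, Finset.card_pair hji.symm]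
  · rintro ⟨⟨K, i⟩, j⟩ h ⟨⟨K', i'⟩, j'⟩ h' heq
    simp only [Finset.mem_sigma, Finset.mem_powersetCard, Finset.mem_compl, Finset.mem_erase]
      at h h'
    obtain ⟨⟨⟨_, hK⟩, hi⟩, hji, hj⟩ := h
    obtain ⟨⟨⟨_, hK'⟩, hi'⟩, hji', hj'⟩ := h'
    simp only [Sigma.mk.injEq, heq_eq_eq] at heq
    obtain ⟨h1, h2⟩ := heq
    have e1 : ∀ x, x = i ∨ x ∈ K ↔ x = i' ∨ x ∈ K' := by
      intro x
      have : x ∈ insert i K ↔ x ∈ insert i' K' := by rw [h1]
      simpa using this
    have e2 : ∀ x, x = j ∨ x ∈ K ↔ x = j' ∨ x ∈ K' := by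
      intro x
      have : x ∈ insert j K ↔ x ∈ insert j' K' := by rw [h2]
      simpa using this
    have hKK : K = K' := by
      ext x
      constructor
      · intro hx
        have a1 := (e1 x).1 (Or.inr hx)
        have a2 := (e2 x).1 (Or.inr hx)
        rcases a1 with rfl | a1
        · rcases a2 with a2 | a2
          · exact absurd a2.symm hji'
          · exact a2
        · exact a1
      · intro hx
        have a1 := (e1 x).2 (Or.inr hx)
        have a2 := (e2 x).2 (Or.inr hx)
        rcases a1 with rfl | a1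
        · rcases a2 with a2 | a2
          · exact absurd a2.symm hji
          · exact a2
        · exact a1
    subst hKK
    have hii : i = i' := by
      rcases (e1 i).1 (Or.inl rfl) with h | h
      · exact h
      · exact absurd h hi
    have hjj : j = j' := by
      rcases (e2 j).1 (Or.inl rfl) with h | h
      · exact h
      · exact absurd h hj
    subst hii hjj
    rfl
  · rintro ⟨I, J⟩ h
    simp only [Finset.mem_sigma, Finset.mem_powersetCard, Finset.mem_filter] at h
    obtain ⟨⟨_, hI⟩, ⟨_, hJ⟩, hIJ⟩ := h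
    have h1 : (I \ J).card = (J \ I).card := Finset.card_sdiff_comm (by rw [hI, hJ])
    have h2 : (I \ J).card + (J \ I).card = 2 := by
      rw [← hIJ, symmDiff, Finset.sup_eq_union, Finset.card_union_of_disjoint]
      exact disjoint_sdiff_sdiff
    have h3 : (I \ J).card = 1 := by omega
    have h4 : (J \ I).card = 1 := by omega
    obtain ⟨i, hi⟩ := Finset.card_eq_one.1 h3
    obtain ⟨j, hj⟩ := Finset.card_eq_one.1 h4
    have hi' : i ∈ I ∧ i ∉ J := by
      have : i ∈ I \ J := by rw [hi]; exact Finset.mem_singleton_self _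
      exact Finset.mem_sdiff.1 this
    have hj' : j ∈ J ∧ j ∉ I := by
      have : j ∈ J \ I := by rw [hj]; exact Finset.mem_singleton_self _
      exact Finset.mem_sdiff.1 this
    have e1 : insert i (I ∩ J) = I := by
      ext x
      simp only [Finset.mem_insert, Finset.mem_inter]
      constructor
      · rintro (rfl | h)
        · exact hi'.1
        · exact h.1
      · intro hx
        by_cases hxJ : x ∈ J
        · exact Or.inr ⟨hx, hxJ⟩
        · left
          have : x ∈ I \ J := Finset.mem_sdiff.2 ⟨hx, hxJ⟩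
          rw [hi, Finset.mem_singleton] at this
          exact this
    have e2 : insert j (I ∩ J) = J := by
      ext x
      simp only [Finset.mem_insert, Finset.mem_inter]
      constructor
      · rintro (rfl | h)
        · exact hj'.1
        · exact h.2
      · intro hx
        by_cases hxI : x ∈ I
        · exact Or.inr ⟨hxI, hx⟩
        · left
          have : x ∈ J \ I := Finset.mem_sdiff.2 ⟨hx, hxI⟩
          rw [hj, Finset.mem_singleton] at this
          exact this
    have hni : i ∉ I ∩ J := fun h => hi'.2 (Finset.mem_inter.1 h).2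
    have hnj : j ∉ I ∩ J := fun h => hj'.2 (Finset.mem_inter.1 h).1
    refine ⟨⟨⟨I ∩ J, i⟩, j⟩, ?_, ?_⟩
    · simp only [Finset.mem_sigma, Finset.mem_powersetCard, Finset.mem_compl, Finset.mem_erase]
      refine ⟨⟨⟨Finset.subset_univ _, ?_⟩, hni⟩, ?_, hnj⟩
      · have := Finset.card_insert_of_notMem hni
        rw [e1, hI] at this
        omega
      · rintro rfl
        exact hj'.2 hi'.1
    · simp only [e1, e2]
  · rintro ⟨⟨K, i⟩, j⟩ h
    rfl

/-- the one-particle functions of a function of `m + 1` particles -/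
def ext {n m : ℕ} (v : St n (m + 1) → ℝ) (K : Finset (Fin n)) (i : Fin n) : ℝ :=
  if i ∈ K then 0 else tot v (insert i K)

theorem ext_norm {n m : ℕ} (v : St n (m + 1) → ℝ) :
    ∑ K ∈ powersetCard m (univ : Finset (Fin n)), dotProduct (ext v K) (ext v K) =
      (m + 1) * dotProduct v v := by
  have h1 : ∀ K : Finset (Fin n), dotProduct (ext v K) (ext v K) =
      ∑ i ∈ Kᶜ, tot v (insert i K) * tot v (insert i K) := by
    intro K
    unfold dotProduct
    rw [← Finset.sum_subset (Finset.subset_univ Kᶜ)]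
    · refine Finset.sum_congr rfl fun i hi => ?_
      rw [Finset.mem_compl] at hi
      simp [ext, hi]
    · intro i _ hi
      rw [Finset.mem_compl, not_not] at hi
      simp [ext, hi]
  simp only [h1]
  rw [sum_one (fun I _ => tot v I * tot v I)]
  have h2 : ∀ I ∈ powersetCard (m + 1) (univ : Finset (Fin n)),
      ∑ _i ∈ I, tot v I * tot v I = (m + 1) * (tot v I * tot v I) := by
    intro I hI
    rw [Finset.mem_powersetCard] at hI
    rw [Finset.sum_const, hI.2, nsmul_eq_mul]
    push_cast
    ring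
  rw [Finset.sum_congr rfl h2, ← Finset.mul_sum, ← sum_St]
  unfold dotProduct
  congr 1
  refine Finset.sum_congr rfl fun I _ => ?_
  rw [tot_eq]

theorem quad_kik {n m : ℕ} (c : ℝ) (Z : Finset (Fin n) → ℝ) (v : St n (m + 1) → ℝ) :
    dotProduct v ((kik n 2 (m + 1) c Z).mulVec v) =
      ∑ K ∈ powersetCard m (univ : Finset (Fin n)),
        dotProduct (ext v K) ((wig n c Z).mulVec (ext v K)) := by
  have h1 : dotProduct v ((kik n 2 (m + 1) c Z).mulVec v) =
      ∑ I ∈ powersetCard (m + 1) (univ : Finset (Fin n)),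
        ∑ J ∈ powersetCard (m + 1) (univ : Finset (Fin n)),
          if (symmDiff I J).card = 2 then tot v I * (c + Z (symmDiff I J)) * tot v J else 0 := by
    rw [quad_eq]
    rw [← sum_St (l := m + 1) (fun I => ∑ J ∈ powersetCard (m + 1) (univ : Finset (Fin n)),
          if (symmDiff I J).card = 2 then tot v I * (c + Z (symmDiff I J)) * tot v J else 0)]
    refine Finset.sum_congr rfl fun I _ => ?_
    rw [← sum_St (l := m + 1) (fun J => if (symmDiff I.1 J).card = 2 then
      tot v I.1 * (c + Z (symmDiff I.1 J)) * tot v J else 0)]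
    refine Finset.sum_congr rfl fun J _ => ?_
    rw [tot_eq, tot_eq]
    unfold kik
    simp only [Matrix.of_apply]
    split_ifs <;> ring
  rw [h1, ← sum_two (fun I J => tot v I * (c + Z (symmDiff I J)) * tot v J)]
  refine Finset.sum_congr rfl fun K _ => ?_
  rw [quad_eq]
  rw [← Finset.sum_subset (Finset.subset_univ Kᶜ)]
  · refine Finset.sum_congr rfl fun i hi => ?_
    rw [Finset.mem_compl] at hi
    rw [← Finset.sum_subset (Finset.subset_univ (Kᶜ.erase i))]
    · refine Finset.sum_congr rfl fun j hj => ?_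
      rw [Finset.mem_erase, Finset.mem_compl] at hj
      have e1 : symmDiff (insert i K) (insert j K) = {i, j} := by
        ext x
        simp only [Finset.mem_symmDiff, Finset.mem_insert, Finset.mem_singleton]
        constructor
        · rintro (⟨h1, h2⟩ | ⟨h1, h2⟩) <;> tauto
        · rintro (rfl | rfl)
          · left; exact ⟨Or.inl rfl, by push Not; exact ⟨hj.1.symm, hi⟩⟩
          · right; exact ⟨Or.inl rfl, by push Not; exact ⟨hj.1, hj.2⟩⟩
      rw [e1]
      simp [ext, hi, hj.2, wig, hj.1.symm]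
    · intro j _ hj
      rw [Finset.mem_erase, Finset.mem_compl, not_and_or, not_not, not_not] at hj
      rcases hj with rfl | hj
      · simp [wig]
      · simp [ext, hj]
  · intro i _ hi
    rw [Finset.mem_compl, not_not] at hi
    simp [ext, hi]

/-- `λmax` of the Kikuchi matrix is at most `l` times the one of the Wigner matrix -/
theorem lmax_kik_le {n m : ℕ} (c : ℝ) (Z : Finset (Fin n) → ℝ) :
    lmax (kik n 2 (m + 1) c Z) ≤ (m + 1) * lmax (wig n c Z) := by
  have h0 := lmax_wig_nonneg c Z
  refine lmax_le_of _ (by positivity) fun v hv => ?_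
  rw [quad_kik]
  calc ∑ K ∈ powersetCard m (univ : Finset (Fin n)),
        dotProduct (ext v K) ((wig n c Z).mulVec (ext v K))
      ≤ ∑ K ∈ powersetCard m (univ : Finset (Fin n)),
        lmax (wig n c Z) * dotProduct (ext v K) (ext v K) :=
        Finset.sum_le_sum fun K _ => quad_le _ _
    _ = _ := by
        rw [← Finset.mul_sum, ext_norm, hv]
        ring

end Pool.Agent.V7H95.Kik2
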